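import Pool.Agent.RDN.Lev

/-!
# Differences of `n`-fold sumsets of a dense set in an interval
-/

open scoped Pointwise

namespace Pool.Agent.RDN

theorem Fs_card_ge {A : Finset ℤ} {l k : ℕ} (hl0 : 0 < l) (h0 : (0 : ℤ) ∈ A)
    (hl : (l : ℤ) ∈ A) (hA : ∀ a ∈ A, 0 ≤ a ∧ a ≤ l)
    (hgen : AddSubgroup.closure (A : Set ℤ) = ⊤) (hk : A.card = k + 1) (n : ℕ) :
    1 + ∑ i ∈ Finset.range n, min l ((i + 1) * (k - 1) + 1) ≤ (Fs A n).card := by
  induction n with
  | zero => simp [Fs_zero]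
  | succ n ih =>
    rw [Finset.sum_range_succ]
    have := lev hl0 h0 hl hA hgen hk n
    omega

/-- the sum over `i` of `min l ((i + 1) (k - 1) + 1)` -/
theorem sum_ge {l k n : ℕ} (hk : 1 ≤ k) (hkl : k ≤ l) (hln : l ≤ n * (k - 1) + 1) :
    n * (l + k) ≤ 2 * ∑ i ∈ Finset.range n, min l ((i + 1) * (k - 1) + 1) := by
  have h1 := Finset.sum_range_reflect (fun i => min l ((i + 1) * (k - 1) + 1)) n
  have h2 : 2 * ∑ i ∈ Finset.range n, min l ((i + 1) * (k - 1) + 1) =
      ∑ i ∈ Finset.range n, (min l ((n - 1 - i + 1) * (k - 1) + 1) +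
        min l ((i + 1) * (k - 1) + 1)) := by
    rw [Finset.sum_add_distrib, h1]; ring
  rw [h2]
  have h3 : ∀ i ∈ Finset.range n, l + k ≤ min l ((n - 1 - i + 1) * (k - 1) + 1) +
      min l ((i + 1) * (k - 1) + 1) := by
    intro i hi
    have hi' := Finset.mem_range.1 hi
    obtain ⟨m, rfl⟩ : ∃ m, k = m + 1 := ⟨k - 1, by omega⟩
    obtain ⟨j, rfl⟩ : ∃ j, n = i + 1 + j := ⟨n - (i + 1), by omega⟩
    have e1 : i + 1 + j - 1 - i + 1 = j + 1 := by omega
    have e2 : m + 1 - 1 = m := by omega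
    rw [e1, e2]
    rw [e2] at hln
    have x1 : (i + 1) * m + 1 = i * m + m + 1 := by ring
    have x2 : (j + 1) * m + 1 = j * m + m + 1 := by ring
    have x3 : (i + 1 + j) * m + 1 = i * m + m + j * m + 1 := by ring
    rw [x1, x2]
    rw [x3] at hln
    rcases le_total l (i * m + m + 1) with h4 | h4 <;>
      rcases le_total l (j * m + m + 1) with h5 | h5 <;>
      simp only [h4, h5, min_eq_left, min_eq_right] <;> omega
  have h4 := Finset.card_nsmul_le_sum _ _ _ h3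
  rw [Finset.card_range, smul_eq_mul] at h4
  exact h4

theorem Fs_bound {A : Finset ℤ} {l : ℕ} (hA : ∀ a ∈ A, 0 ≤ a ∧ a ≤ l) (n : ℕ) :
    ∀ x ∈ Fs A n, 0 ≤ x ∧ x ≤ n * l := by
  induction n with
  | zero =>
    intro x hx
    rw [Fs_zero, Finset.mem_singleton] at hx
    rw [hx]; simp
  | succ n ih =>
    intro x hx
    rw [Fs_succ] at hx
    obtain ⟨u, hu, a, ha, rfl⟩ := Finset.mem_add.1 hx
    obtain ⟨h1, h2⟩ := ih u hu
    obtain ⟨h3, h4⟩ := hA a ha
    refine ⟨by omega, ?_⟩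
    push_cast
    linarith

/-- the density theorem -/
theorem dens {A : Finset ℤ} {l k n b : ℕ} (hl0 : 0 < l) (h0 : (0 : ℤ) ∈ A)
    (hl : (l : ℤ) ∈ A) (hA : ∀ a ∈ A, 0 ≤ a ∧ a ≤ l)
    (hgen : AddSubgroup.closure (A : Set ℤ) = ⊤) (hk : A.card = k + 1)
    (hln : l ≤ n * (k - 1) + 1) (hb : b ≤ n * k) :
    ∃ x ∈ Fs A n, ∃ y ∈ Fs A n, x = y + b := by
  have hlz : (l : ℤ) ≠ 0 := by
    have : (0 : ℤ) < l := by exact_mod_cast hl0
    omega
  have hk1 : 1 ≤ k := by
    have h1 : ({0, (l : ℤ)} : Finset ℤ) ⊆ A := by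
      intro x hx
      rcases Finset.mem_insert.1 hx with rfl | hx
      · exact h0
      · rw [Finset.mem_singleton.1 hx]; exact hl
    have h2 := Finset.card_le_card h1
    rw [Finset.card_pair hlz.symm, hk] at h2
    omega
  have hkl : k ≤ l := by
    have h1 : A ⊆ Finset.Icc 0 (l : ℤ) := fun a ha => Finset.mem_Icc.2 (hA a ha)
    have h2 := Finset.card_le_card h1
    rw [Int.card_Icc, hk] at h2
    omega
  by_contra hne
  push Not at hne
  have h1 : Disjoint (Fs A n) ((Fs A n).image fun y => y + (b : ℤ)) := by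
    rw [Finset.disjoint_left]
    intro x hx hx'
    obtain ⟨y, hy, rfl⟩ := Finset.mem_image.1 hx'
    exact hne _ hx y hy rfl
  have h2 : Fs A n ∪ ((Fs A n).image fun y => y + (b : ℤ)) ⊆
      Finset.Icc 0 ((n * l + b : ℕ) : ℤ) := by
    intro x hx
    rcases Finset.mem_union.1 hx with hx | hx
    · obtain ⟨h3, h4⟩ := Fs_bound hA n x hx
      refine Finset.mem_Icc.2 ⟨h3, ?_⟩
      push_cast; omega
    · obtain ⟨y, hy, rfl⟩ := Finset.mem_image.1 hx
      obtain ⟨h3, h4⟩ := Fs_bound hA n y hy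
      refine Finset.mem_Icc.2 ⟨by omega, ?_⟩
      push_cast; omega
  have h3 := Finset.card_le_card h2
  rw [Finset.card_union_of_disjoint h1, Int.card_Icc,
    Finset.card_image_of_injective _ (add_left_injective (b : ℤ))] at h3
  have h4 := Fs_card_ge hl0 h0 hl hA hgen hk n
  have h5 := sum_ge hk1 hkl hln
  have h6 : n * (l + k) = n * l + n * k := by ring
  have h7 : (((n * l + b : ℕ) : ℤ) + 1 - 0).toNat = n * l + b + 1 := by omega
  rw [h7] at h3
  omega

end Pool.Agent.RDN
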