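import Pool.Agent.RDN.Dens

/-!
# The critical case

`A` has `k + 1` elements in `[0, l]` with `n (k - 1) + 2 ≤ l < n k`, and `b = n k`. The elements of
the `n`-fold sumset are counted in the classes modulo `b`.
-/

open scoped Pointwise

namespace Pool.Agent.RDN

/-- no two consecutive elements -/
private theorem nc {T : Finset ℕ} {m : ℕ} (hT : ∀ t ∈ T, t < m) (h : ∀ t ∈ T, t + 1 ∉ T) :
    2 * T.card ≤ m + 1 := by
  have h1 : Disjoint T (T.image fun t => t + 1) := by
    rw [Finset.disjoint_left]
    intro x hx hx'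
    obtain ⟨t, ht, rfl⟩ := Finset.mem_image.1 hx'
    exact h t ht hx
  have h2 : T ∪ (T.image fun t => t + 1) ⊆ Finset.range (m + 1) := by
    intro x hx
    rw [Finset.mem_range]
    rcases Finset.mem_union.1 hx with hx | hx
    · have := hT x hx; omega
    · obtain ⟨t, ht, rfl⟩ := Finset.mem_image.1 hx
      have := hT t ht; omega
  have h3 := Finset.card_le_card h2
  rw [Finset.card_union_of_disjoint h1, Finset.card_range,
    Finset.card_image_of_injective _ (add_left_injective 1)] at h3
  omega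

private theorem nc_one {T : Finset ℕ} {m : ℕ} (hT : ∀ t ∈ T, t < m)
    (h : ∀ t ∈ T, t + 1 ∉ T) (h1 : 1 ∈ T) : 2 * T.card ≤ m := by
  have h0 : 0 ∉ T := fun h0 => h 0 h0 h1
  have h2 := nc (T := T.image fun t => t - 1) (m := m - 1) (by
    intro t ht
    obtain ⟨s, hs, rfl⟩ := Finset.mem_image.1 ht
    have := hT s hs
    have : s ≠ 0 := fun h => h0 (h ▸ hs)
    omega) (by
    intro t ht ht'
    obtain ⟨s, hs, rfl⟩ := Finset.mem_image.1 ht
    obtain ⟨s', hs', h3⟩ := Finset.mem_image.1 ht'
    have h4 : s ≠ 0 := fun h => h0 (h ▸ hs)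
    have h5 : s' ≠ 0 := fun h => h0 (h ▸ hs')
    have h6 : s' = s + 1 := by omega
    exact h s hs (h6 ▸ hs'))
  rw [Finset.card_image_of_injOn] at h2
  · have := hT 1 h1
    omega
  · intro x hx y hy hxy
    have h4 : x ≠ 0 := fun h => h0 (h ▸ hx)
    have h5 : y ≠ 0 := fun h => h0 (h ▸ hy)
    simp only at hxy
    omega

private theorem sum_lin (k n : ℕ) :
    2 * ∑ i ∈ Finset.range n, ((i + 1) * k + 1) = n * (n + 1) * k + 2 * n := by
  induction n with
  | zero => simp
  | succ n ih =>
    rw [Finset.sum_range_succ, mul_add, ih]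
    ring

theorem crit {A : Finset ℤ} {l k n : ℕ} (hl0 : 0 < l) (h0 : (0 : ℤ) ∈ A)
    (hl : (l : ℤ) ∈ A) (hA : ∀ a ∈ A, 0 ≤ a ∧ a ≤ l)
    (hgen : AddSubgroup.closure (A : Set ℤ) = ⊤) (hk : A.card = k + 1) (hn : 2 ≤ n)
    (hl1 : n * (k - 1) + 2 ≤ l) (hl2 : l < n * k) (he : n % 2 = 0 → n - 1 ≤ k)
    (ho : n % 2 = 1 → (n - 1) * (n - 2) ≤ k) :
    ∃ x ∈ Fs A n, ∃ y ∈ Fs A n, x = y + ((n * k : ℕ) : ℤ) := by
  classical
  by_contra hne
  push Not at hne
  have hk1 : 1 ≤ k := by
    rcases Nat.eq_zero_or_pos k with h | h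
    · subst h; simp at hl2
    · exact h
  set b := n * k with hb
  obtain ⟨a, ha⟩ : ∃ a, b = l + a := ⟨b - l, by omega⟩
  have ha1 : 1 ≤ a := by omega
  obtain ⟨m, hm⟩ : ∃ m, k = m + 1 := ⟨k - 1, by omega⟩
  have hkm : k - 1 = m := by omega
  rw [hkm] at hl1
  have hbm : b = n * m + n := by rw [hb, hm]; ring
  have ha2 : a + 2 ≤ n := by omega
  have hb0 : 0 < b := by omega
  -- lower bound
  have hlow : n * (n + 1) * m + 2 * n + 2 ≤ 2 * (Fs A n).card := by
    have h1 := Fs_card_ge hl0 h0 hl hA hgen hk n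
    have h2 : ∑ i ∈ Finset.range n, min l ((i + 1) * (k - 1) + 1) =
        ∑ i ∈ Finset.range n, ((i + 1) * m + 1) := by
      refine Finset.sum_congr rfl fun i hi => ?_
      rw [hkm]
      refine min_eq_right ?_
      have h3 : (i + 1) * m ≤ n * m :=
        Nat.mul_le_mul_right _ (by have := Finset.mem_range.1 hi; omega)
      omega
    rw [h2] at h1
    have h3 := sum_lin m n
    omega
  -- the slots
  set T : ℕ → Finset ℕ := fun z =>
    (Finset.range n).filter fun t => (z : ℤ) + (t : ℤ) * (b : ℤ) ∈ Fs A n with hT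
  have hT1 : ∀ z, ∀ t ∈ T z, t < n := fun z t ht =>
    Finset.mem_range.1 (Finset.mem_filter.1 ht).1
  have hT2 : ∀ z, ∀ t ∈ T z, t + 1 ∉ T z := by
    intro z t ht ht'
    refine hne _ (Finset.mem_filter.1 ht').2 _ (Finset.mem_filter.1 ht).2 ?_
    push_cast
    ring
  have hbd := Fs_bound hA n
  have hupp : (Fs A n).card ≤ ∑ z ∈ Finset.range b, (T z).card := by
    have h1 : Fs A n ⊆ (Finset.range b).biUnion fun z =>
        (T z).image fun t : ℕ => (z : ℤ) + (t : ℤ) * (b : ℤ) := by
      intro x hx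
      obtain ⟨hx0, hx1⟩ := hbd x hx
      have hbz : (0 : ℤ) < (b : ℤ) := by exact_mod_cast hb0
      have e0 : 0 ≤ x % (b : ℤ) := Int.emod_nonneg _ (by omega)
      have e1 : x % (b : ℤ) < b := Int.emod_lt_of_pos _ hbz
      have e2 : 0 ≤ x / (b : ℤ) := Int.ediv_nonneg hx0 (by omega)
      have e3 : x / (b : ℤ) < n := by
        refine Int.ediv_lt_of_lt_mul hbz ?_
        have : (n : ℤ) * (l : ℤ) < (n : ℤ) * (b : ℤ) :=
          mul_lt_mul_of_pos_left (by exact_mod_cast hl2) (by exact_mod_cast (by omega : 0 < n))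
        linarith
      obtain ⟨u, hu⟩ := Int.eq_ofNat_of_zero_le e0
      obtain ⟨t, ht⟩ := Int.eq_ofNat_of_zero_le e2
      have e4 : x = (u : ℤ) + (t : ℤ) * (b : ℤ) := by
        have := Int.emod_add_mul_ediv x (b : ℤ)
        rw [hu, ht] at this
        rw [← this]; ring
      refine Finset.mem_biUnion.2 ⟨u, Finset.mem_range.2 (by omega), Finset.mem_image.2
        ⟨t, Finset.mem_filter.2 ⟨Finset.mem_range.2 (by omega), ?_⟩, e4.symm⟩⟩
      rw [← e4]; exact hx
    refine (Finset.card_le_card h1).trans (Finset.card_biUnion_le.trans ?_)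
    exact Finset.sum_le_sum fun z _ => Finset.card_image_le
  have hall : ∀ z, 2 * (T z).card ≤ n + 1 := fun z => nc (hT1 z) (hT2 z)
  rcases Nat.mod_two_eq_zero_or_one n with hpar | hpar
  · -- `n` even
    have h1 : ∑ z ∈ Finset.range b, 2 * (T z).card ≤ ∑ z ∈ Finset.range b, n :=
      Finset.sum_le_sum fun z _ => by
        have := hall z
        omega
    rw [← Finset.mul_sum, Finset.sum_const, Finset.card_range, smul_eq_mul] at h1
    have h2 := he hpar
    have h3 : n * (n + 1) * m + 2 * n + 2 ≤ b * n := by omega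
    rw [hbm] at h3
    have h4 : n ≤ m + 2 := by omega
    nlinarith
  · -- `n` odd
    have hn3 : 3 ≤ n := by omega
    have hko := ho hpar
    -- the classes with few elements
    set V : Finset ℕ := (A.filter fun x : ℤ => (a : ℤ) ≤ x).image
      fun x : ℤ => (x - (a : ℤ)).toNat with hV
    set W : Finset ℕ := insert (b - 1) V with hW
    have hVlt : ∀ z ∈ V, z < b - 1 := by
      intro z hz
      obtain ⟨x, hx, rfl⟩ := Finset.mem_image.1 hz
      obtain ⟨hx1, hx2⟩ := Finset.mem_filter.1 hx
      have := (hA x hx1).2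
      omega
    have hVc : k + 1 ≤ V.card + a := by
      have h1 : V.card = (A.filter fun x => (a : ℤ) ≤ x).card := by
        refine Finset.card_image_of_injOn ?_
        intro x hx y hy hxy
        have hx2 := (Finset.mem_filter.1 (Finset.mem_coe.1 hx)).2
        have hy2 := (Finset.mem_filter.1 (Finset.mem_coe.1 hy)).2
        simp only at hxy
        omega
      have h2 : (A.filter fun x => ¬ (a : ℤ) ≤ x).card ≤ a := by
        have h3 : (A.filter fun x => ¬ (a : ℤ) ≤ x) ⊆ Finset.Ico 0 (a : ℤ) := by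
          intro x hx
          obtain ⟨hx1, hx2⟩ := Finset.mem_filter.1 hx
          exact Finset.mem_Ico.2 ⟨(hA x hx1).1, by omega⟩
        have h4 := Finset.card_le_card h3
        rw [Int.card_Ico] at h4
        omega
      have h3 := Finset.card_filter_add_card_filter_not (s := A) (fun x => (a : ℤ) ≤ x)
      omega
    have hWc : W.card = V.card + 1 := by
      rw [hW, Finset.card_insert_of_notMem]
      intro h1
      have := hVlt _ h1
      omega
    have hWb : W ⊆ Finset.range b := by
      intro z hz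
      rw [Finset.mem_range]
      rcases Finset.mem_insert.1 hz with rfl | hz
      · omega
      · have := hVlt z hz; omega
    have hWT : ∀ z ∈ W, 2 * (T z).card + 2 ≤ n + 1 := by
      intro z hz
      have h5 : 2 * (T z).card ≤ n := by
        rcases Finset.mem_insert.1 hz with rfl | hz
        · have h1 := nc (T := T (b - 1)) (m := n - 1) (by
            intro t ht
            have h2 := hT1 _ t ht
            by_contra h3
            have h4 : t = n - 1 := by omega
            obtain ⟨-, h6⟩ := hbd _ (Finset.mem_filter.1 ht).2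
            rw [h4] at h6
            have h7 : (((b - 1 : ℕ) : ℤ)) + (((n - 1 : ℕ) : ℤ)) * (b : ℤ) =
                (n : ℤ) * b - 1 := by
              push_cast [Nat.cast_sub (by omega : 1 ≤ b), Nat.cast_sub (by omega : 1 ≤ n)]
              ring
            rw [h7] at h6
            have h8 : (n : ℤ) * (l : ℤ) + n ≤ (n : ℤ) * b := by
              have : (n : ℤ) * ((l : ℤ) + 1) ≤ (n : ℤ) * b :=
                mul_le_mul_of_nonneg_left (by omega) (by omega)
              linarith
            have h9 : (3 : ℤ) ≤ n := by exact_mod_cast hn3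
            linarith) (hT2 _)
          omega
        · obtain ⟨x, hx, rfl⟩ := Finset.mem_image.1 hz
          obtain ⟨hx1, hx2⟩ := Finset.mem_filter.1 hx
          refine nc_one (hT1 _) (hT2 _) ?_
          refine Finset.mem_filter.2 ⟨Finset.mem_range.2 (by omega), ?_⟩
          have h6 : (((x - (a : ℤ)).toNat : ℕ) : ℤ) + ((1 : ℕ) : ℤ) * (b : ℤ) = x + l := by
            push_cast
            omega
          rw [h6]
          have h7 : x + (l : ℤ) ∈ Fs A 2 := by
            rw [Fs_succ, Fs_one]
            exact Finset.mem_add.2 ⟨x, hx1, l, hl, rfl⟩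
          exact Fs_le h0 hn h7
      omega
    have hsum : ∑ z ∈ Finset.range b, 2 * (T z).card + 2 * W.card ≤ b * (n + 1) := by
      rw [← Finset.sum_sdiff hWb]
      have h1 : ∑ z ∈ Finset.range b \ W, 2 * (T z).card ≤
          (Finset.range b \ W).card * (n + 1) :=
        Finset.sum_le_card_nsmul _ _ _ fun z _ => hall z
      have h2 : ∑ z ∈ W, (2 * (T z).card + 2) ≤ W.card * (n + 1) :=
        Finset.sum_le_card_nsmul _ _ _ fun z hz => hWT z hz
      rw [Finset.sum_add_distrib, Finset.sum_const, smul_eq_mul] at h2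
      have h3 := Finset.card_sdiff_add_card_eq_card hWb
      rw [Finset.card_range] at h3
      have h4 : ((Finset.range b \ W).card + W.card) * (n + 1) =
          (Finset.range b \ W).card * (n + 1) + W.card * (n + 1) := by ring
      rw [h3] at h4
      omega
    rw [← Finset.mul_sum] at hsum
    have h1 : n * (n + 1) * m + 2 * n + 2 + 2 * W.card ≤ b * (n + 1) := by omega
    rw [hWc, hbm] at h1
    have h2 : k + 1 ≤ V.card + a := hVc
    obtain ⟨j, rfl⟩ : ∃ j, n = j + 3 := ⟨n - 3, by omega⟩
    have e1 : j + 3 - 1 = j + 2 := by omega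
    have e2 : j + 3 - 2 = j + 1 := by omega
    rw [e1, e2] at hko
    have h3 : (j + 2) * (j + 1) ≤ m + 1 := by omega
    nlinarith

end Pool.Agent.RDN
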