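import Mathlib

/-!
# The `h`-fold sumset, fibres of a homomorphism
-/

open scoped Pointwise

namespace Pool.Agent.RDN

/-- the `h`-fold sumset -/
def Fs {M : Type*} [AddCommMonoid M] [DecidableEq M] (A : Finset M) : ℕ → Finset M
  | 0 => {0}
  | h + 1 => Fs A h + A

section Fs

variable {M : Type*} [AddCommMonoid M] [DecidableEq M] {A B : Finset M}

theorem Fs_zero : Fs A 0 = {0} := rfl

theorem Fs_succ (h : ℕ) : Fs A (h + 1) = Fs A h + A := rfl

theorem Fs_one : Fs A 1 = A := by
  rw [Fs_succ, Fs_zero]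
  ext x
  simp [Finset.mem_add]

theorem Fs_step (h0 : (0 : M) ∈ A) (h : ℕ) : Fs A h ⊆ Fs A (h + 1) := by
  intro x hx
  rw [Fs_succ]
  exact Finset.mem_add.2 ⟨x, hx, 0, h0, add_zero x⟩

theorem Fs_le (h0 : (0 : M) ∈ A) {i j : ℕ} (hij : i ≤ j) : Fs A i ⊆ Fs A j := by
  induction j, hij using Nat.le_induction with
  | base => exact Finset.Subset.refl _
  | succ n _ ih => exact ih.trans (Fs_step h0 n)

theorem zero_mem_Fs (h0 : (0 : M) ∈ A) (h : ℕ) : (0 : M) ∈ Fs A h :=
  Fs_le h0 (Nat.zero_le h) (by rw [Fs_zero]; exact Finset.mem_singleton_self _)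

theorem Fs_mono (hAB : A ⊆ B) (h : ℕ) : Fs A h ⊆ Fs B h := by
  induction h with
  | zero => exact Finset.Subset.refl _
  | succ n ih =>
    rw [Fs_succ, Fs_succ]
    exact Finset.add_subset_add ih hAB

theorem Fs_nonempty (h0 : (0 : M) ∈ A) (h : ℕ) : (Fs A h).Nonempty := ⟨0, zero_mem_Fs h0 h⟩

theorem Fs_image {N : Type*} [AddCommMonoid N] [DecidableEq N] (f : M →+ N) (h : ℕ) :
    (Fs A h).image f = Fs (A.image f) h := by
  induction h with
  | zero => simp [Fs_zero]
  | succ n ih => rw [Fs_succ, Fs_succ, Finset.image_add, ih]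

theorem Fs_singleton (z : M) (h : ℕ) : Fs {z} h = {h • z} := by
  induction h with
  | zero => simp [Fs_zero]
  | succ n ih => rw [Fs_succ, ih, Finset.singleton_add_singleton, succ_nsmul]

/-- a sum of `h + 1` elements without a zero term, or a sum of `h` elements -/
theorem Fs_erase (h : ℕ) : Fs A (h + 1) ⊆ Fs A h ∪ Fs (A.erase 0) (h + 1) := by
  induction h with
  | zero =>
    intro x hx
    rw [Fs_succ] at hx
    obtain ⟨u, hu, a, ha, rfl⟩ := Finset.mem_add.1 hx
    by_cases h1 : a = 0
    · rw [h1, add_zero]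
      exact Finset.mem_union_left _ hu
    · refine Finset.mem_union_right _ (Finset.mem_add.2 ⟨u, hu, a,
        Finset.mem_erase.2 ⟨h1, ha⟩, rfl⟩)
  | succ n ih =>
    intro x hx
    rw [Fs_succ] at hx
    obtain ⟨u, hu, a, ha, rfl⟩ := Finset.mem_add.1 hx
    by_cases h1 : a = 0
    · rw [h1, add_zero]
      exact Finset.mem_union_left _ hu
    · rcases Finset.mem_union.1 (ih hu) with h2 | h2
      · exact Finset.mem_union_left _ (Finset.mem_add.2 ⟨u, h2, a, ha, rfl⟩)
      · exact Finset.mem_union_right _ (Finset.mem_add.2 ⟨u, h2, a,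
          Finset.mem_erase.2 ⟨h1, ha⟩, rfl⟩)

/-- if every representation ends with `z₀` then every term is `z₀` -/
theorem Fs_uniq {z₀ : M} (h : ℕ) : ∀ w ∈ Fs A (h + 1),
    (∀ u ∈ Fs A h, ∀ z ∈ A, w = u + z → z = z₀) → w ∈ Fs {z₀} (h + 1) := by
  induction h with
  | zero =>
    intro w hw hu
    rw [Fs_succ] at hw
    obtain ⟨u, hu', a, ha, rfl⟩ := Finset.mem_add.1 hw
    have := hu u hu' a ha rfl
    rw [this, Fs_succ]
    exact Finset.mem_add.2 ⟨u, hu', z₀, Finset.mem_singleton_self _, rfl⟩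
  | succ n ih =>
    intro w hw hu
    rw [Fs_succ] at hw
    obtain ⟨u, hu', a, ha, rfl⟩ := Finset.mem_add.1 hw
    have h1 := hu u hu' a ha rfl
    subst h1
    rw [Fs_succ]
    refine Finset.mem_add.2 ⟨u, ih u hu' ?_, a, Finset.mem_singleton_self _, rfl⟩
    intro v hv z hz hvz
    refine hu (v + a) (Finset.mem_add.2 ⟨v, hv, a, ha, rfl⟩) z hz ?_
    rw [hvz, add_right_comm]

end Fs

section fib

set_option linter.unusedSectionVars false

variable {G Q : Type*} [AddCommGroup G] [Fintype G] [DecidableEq G] [AddCommGroup Q]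
  [Fintype Q] [DecidableEq Q]

/-- the size of the kernel -/
def ker (q : G →+ Q) : ℕ := (Finset.univ.filter fun g => q g = 0).card

theorem fib_card {q : G →+ Q} (hq : Function.Surjective q) (w : Q) :
    (Finset.univ.filter fun g => q g = w).card = ker q := by
  obtain ⟨g0, rfl⟩ := hq w
  rw [ker]
  refine Finset.card_bij (fun g _ => g - g0) ?_ ?_ ?_
  · intro g hg
    rw [Finset.mem_filter] at hg ⊢
    refine ⟨Finset.mem_univ _, ?_⟩
    rw [map_sub, hg.2, sub_self]
  · intro a _ b _ hab
    exact sub_left_injective hab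
  · intro b hb
    rw [Finset.mem_filter] at hb
    refine ⟨b + g0, ?_, by abel⟩
    rw [Finset.mem_filter]
    refine ⟨Finset.mem_univ _, ?_⟩
    rw [map_add, hb.2, zero_add]

theorem ker_pos (q : G →+ Q) : 0 < ker q :=
  Finset.card_pos.2 ⟨0, Finset.mem_filter.2 ⟨Finset.mem_univ _, map_zero q⟩⟩

theorem fib_le {q : G →+ Q} (hq : Function.Surjective q) (S : Finset G) (w : Q) :
    (S.filter fun g => q g = w).card ≤ ker q := by
  rw [← fib_card hq w]
  exact Finset.card_le_card (Finset.filter_subset_filter _ (Finset.subset_univ _))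

theorem pre_card {q : G →+ Q} (hq : Function.Surjective q) (T : Finset Q) :
    (Finset.univ.filter fun g => q g ∈ T).card = T.card * ker q := by
  have h1 := Finset.card_eq_sum_card_fiberwise (f := q) (t := T)
    (s := Finset.univ.filter fun g => q g ∈ T)
    (fun x hx => (Finset.mem_filter.1 (Finset.mem_coe.1 hx)).2)
  rw [h1, Finset.sum_const_nat]
  intro w hw
  rw [← fib_card hq w]
  congr 1
  ext g
  simp only [Finset.mem_filter, Finset.mem_univ, true_and]
  exact ⟨fun h => h.2, fun h => ⟨h ▸ hw, h⟩⟩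

/-- two large pieces of cosets sum to everything in the sum of the cosets -/
theorem fib_add {q : G →+ Q} (hq : Function.Surjective q) {S : Finset G} {z₁ z₂ : Q}
    (h : ker q < (S.filter fun g => q g = z₁).card + (S.filter fun g => q g = z₂).card)
    {g : G} (hg : q g = z₁ + z₂) : ∃ x ∈ S, ∃ y ∈ S, g = x + y := by
  by_contra hne
  push Not at hne
  have h1 : Disjoint (S.filter fun g => q g = z₁)
      ((S.filter fun g => q g = z₂).image fun y => g - y) := by
    rw [Finset.disjoint_left]
    intro x hx hx'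
    obtain ⟨y, hy, rfl⟩ := Finset.mem_image.1 hx'
    exact hne _ (Finset.mem_filter.1 hx).1 y (Finset.mem_filter.1 hy).1 (by abel)
  have h2 : (S.filter fun g => q g = z₁) ∪ ((S.filter fun g => q g = z₂).image fun y => g - y)
      ⊆ Finset.univ.filter fun g => q g = z₁ := by
    intro x hx
    rcases Finset.mem_union.1 hx with hx | hx
    · exact Finset.mem_filter.2 ⟨Finset.mem_univ _, (Finset.mem_filter.1 hx).2⟩
    · obtain ⟨y, hy, rfl⟩ := Finset.mem_image.1 hx
      refine Finset.mem_filter.2 ⟨Finset.mem_univ _, ?_⟩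
      rw [map_sub, hg, (Finset.mem_filter.1 hy).2, add_sub_cancel_right]
  have h3 := Finset.card_le_card h2
  rw [Finset.card_union_of_disjoint h1, fib_card hq, Finset.card_image_of_injective _
    (fun a b hab => sub_right_injective hab)] at h3
  omega

end fib

end Pool.Agent.RDN
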