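import Mathlib

/-!
# The isoperimetric lemma in a finite abelian group

For a nonempty set `S` the smallest growth `|X + S| - |X|` over the nonempty sets `X` with `X + S`
not everything is attained at a subgroup.
-/

open scoped Pointwise

namespace Pool.Agent.RDN

variable {G : Type*} [AddCommGroup G] [Fintype G] [DecidableEq G]

omit [Fintype G] in
private theorem iso_le {T X : Finset G} (hT : T.Nonempty) : X.card ≤ (X + T).card :=
  Finset.card_le_card_add_right hT

/-- duality -/
private theorem iso_dual {T X : Finset G} (hX : X.Nonempty) (h : X + T ≠ Finset.univ) :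
    ((X + T)ᶜ).Nonempty ∧ (X + T)ᶜ + (-T) ≠ Finset.univ ∧
      ((X + T)ᶜ + (-T)).card + X.card ≤ Fintype.card G := by
  have h1 : (X + T)ᶜ + (-T) ⊆ Xᶜ := by
    intro z hz
    obtain ⟨y, hy, t, ht, rfl⟩ := Finset.mem_add.1 hz
    rw [Finset.mem_compl] at hy ⊢
    intro hx
    apply hy
    rw [Finset.mem_neg] at ht
    obtain ⟨s, hs, rfl⟩ := ht
    refine Finset.mem_add.2 ⟨y + -s, hx, s, hs, by abel⟩
  refine ⟨?_, ?_, ?_⟩
  · rw [Finset.nonempty_iff_ne_empty]
    intro h2
    exact h (Finset.compl_eq_empty_iff _ |>.1 h2)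
  · intro h2
    obtain ⟨x, hx⟩ := hX
    have := h1 (h2 ▸ Finset.mem_univ x)
    exact (Finset.mem_compl.1 this) hx
  · have := Finset.card_le_card h1
    rw [Finset.card_compl] at this
    have h3 := Finset.card_le_univ X
    omega

/-- the growth is minimal at a subgroup -/
theorem iso {S : Finset G} (hS : S.Nonempty)
    (h : ∃ X : Finset G, X.Nonempty ∧ X + S ≠ Finset.univ) :
    ∃ (H : AddSubgroup G) (F : Finset G), (∀ x, x ∈ F ↔ x ∈ H) ∧ F + S ≠ Finset.univ ∧
      ∀ X : Finset G, X.Nonempty → X + S ≠ Finset.univ →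
        X.card + (F + S).card ≤ (X + S).card + F.card := by
  classical
  -- the admissible pairs
  let P : Finset G × Finset G → Prop := fun p =>
    (p.1 = S ∨ p.1 = -S) ∧ p.2.Nonempty ∧ p.2 + p.1 ≠ Finset.univ
  have hPne : (Finset.univ.filter P).Nonempty := by
    obtain ⟨X, hX, hXS⟩ := h
    exact ⟨(S, X), Finset.mem_filter.2 ⟨Finset.mem_univ _, Or.inl rfl, hX, hXS⟩⟩
  have hTne : ∀ p, P p → p.1.Nonempty := by
    rintro p ⟨h1 | h1, -, -⟩
    · rw [h1]; exact hS
    · rw [h1]; exact hS.neg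
  -- first minimise the growth
  obtain ⟨p0, hp0, hmin0⟩ := Finset.exists_min_image (Finset.univ.filter P)
    (fun p => (p.2 + p.1).card - p.2.card) hPne
  set κ := (p0.2 + p0.1).card - p0.2.card with hκ
  have hp0' : P p0 := (Finset.mem_filter.1 hp0).2
  have hκle : ∀ p, P p → p.2.card + κ ≤ (p.2 + p.1).card := by
    intro p hp
    have h1 := hmin0 p (Finset.mem_filter.2 ⟨Finset.mem_univ _, hp⟩)
    have h2 : p.2.card ≤ (p.2 + p.1).card := iso_le (hTne p hp)
    omega
  -- then the cardinality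
  obtain ⟨p1, hp1, hmin1⟩ := Finset.exists_min_image
    ((Finset.univ.filter P).filter fun p => (p.2 + p.1).card = p.2.card + κ)
    (fun p => p.2.card) ⟨p0, Finset.mem_filter.2 ⟨hp0, by
      have : p0.2.card ≤ (p0.2 + p0.1).card := iso_le (hTne p0 hp0')
      omega⟩⟩
  obtain ⟨T, X⟩ := p1
  obtain ⟨hp1a, hp1b⟩ := Finset.mem_filter.1 hp1
  have hP1 : P (T, X) := (Finset.mem_filter.1 hp1a).2
  simp only at hp1b
  obtain ⟨hT, hX, hXT⟩ := hP1
  simp only at hT hX hXT
  have hTn : T.Nonempty := hTne (T, X) ⟨hT, hX, hXT⟩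
  have hmin : ∀ (T' Y : Finset G), P (T', Y) → (Y + T').card = Y.card + κ → X.card ≤ Y.card := by
    intro T' Y h1 h2
    exact hmin1 (T', Y) (Finset.mem_filter.2 ⟨Finset.mem_filter.2 ⟨Finset.mem_univ _, h1⟩, h2⟩)
  have hnegT : (-T = S ∨ -T = -S) := by
    rcases hT with h1 | h1
    · right; rw [h1]
    · left; rw [h1, neg_neg]
  -- the dual of the atom is at least as large
  have hbig : 2 * X.card + κ ≤ Fintype.card G := by
    obtain ⟨d1, d2, d3⟩ := iso_dual hX hXT
    have h1 := hκle (-T, (X + T)ᶜ) ⟨hnegT, d1, d2⟩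
    simp only at h1
    have h2 : ((X + T)ᶜ).card = Fintype.card G - (X + T).card := Finset.card_compl _
    have h3 : (X + T).card ≤ Fintype.card G := Finset.card_le_univ _
    have h4 := hmin (-T) ((X + T)ᶜ) ⟨hnegT, d1, d2⟩ (by omega)
    omega
  -- translates
  have htr : ∀ g : G, (X + {g} + T).card = X.card + κ ∧ X + {g} + T ≠ Finset.univ ∧
      (X + {g}).card = X.card := by
    intro g
    have h1 : X + {g} + T = X + T + {g} := by
      rw [add_assoc, add_assoc, add_comm {g} T]
    refine ⟨?_, ?_, ?_⟩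
    · rw [h1, Finset.card_add_singleton, hp1b]
    · intro h2
      apply hXT
      rw [← Finset.card_eq_iff_eq_univ, ← Finset.card_add_singleton _ g, ← h1, h2,
        Finset.card_univ]
    · exact Finset.card_add_singleton _ _
  have key : ∀ g : G, (X ∩ (X + {g})).Nonempty → X + {g} = X := by
    intro g hg
    obtain ⟨t1, t2, t3⟩ := htr g
    set Y := X + {g} with hY
    have hI : P (T, X ∩ Y) := by
      refine ⟨hT, hg, ?_⟩
      intro h1
      apply hXT
      rw [← Finset.univ_subset_iff, ← h1]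
      exact Finset.add_subset_add_right Finset.inter_subset_left
    have i1 := hκle _ hI
    simp only at i1
    have i2 : (X ∩ Y) + T ⊆ (X + T) ∩ (Y + T) := Finset.subset_inter
      (Finset.add_subset_add_right Finset.inter_subset_left)
      (Finset.add_subset_add_right Finset.inter_subset_right)
    have i3 := Finset.card_le_card i2
    have u1 : (X ∪ Y) + T = (X + T) ∪ (Y + T) := Finset.union_add
    have u2 := Finset.card_union_add_card_inter (X + T) (Y + T)
    have u3 := Finset.card_union_add_card_inter X Y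
    rw [← u1] at u2
    have hI1 : 1 ≤ (X ∩ Y).card := Finset.card_pos.2 hg
    have u4 : (X ∪ Y) + T ≠ Finset.univ := by
      intro h1
      rw [h1, Finset.card_univ] at u2
      omega
    have u5 := hκle (T, X ∪ Y) ⟨hT, hX.mono Finset.subset_union_left, u4⟩
    simp only at u5
    have i4 : ((X ∩ Y) + T).card = (X ∩ Y).card + κ := by omega
    have i5 := hmin T (X ∩ Y) hI i4
    have i6 : X ∩ Y = X := Finset.eq_of_subset_of_card_le Finset.inter_subset_left i5
    have i7 : X ⊆ Y := by
      rw [← i6]; exact Finset.inter_subset_right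
    exact (Finset.eq_of_subset_of_card_le i7 (by omega)).symm
  obtain ⟨x0, hx0⟩ := hX
  set F := X + {-x0} with hF
  have hF0 : (0 : G) ∈ F := Finset.mem_add.2 ⟨x0, hx0, -x0, Finset.mem_singleton_self _, by abel⟩
  have hFg : ∀ g ∈ F, F + {g} = F := by
    intro g hg
    have h1 : (X ∩ (X + {g})).Nonempty := by
      obtain ⟨x, hx, y, hy, hxy⟩ := Finset.mem_add.1 hg
      rw [Finset.mem_singleton] at hy
      refine ⟨x, Finset.mem_inter.2 ⟨hx, Finset.mem_add.2 ⟨x0, hx0, g,
        Finset.mem_singleton_self _, ?_⟩⟩⟩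
      rw [← hxy, hy]; abel
    have h2 := key g h1
    rw [hF, add_assoc, add_comm ({-x0} : Finset G) {g}, ← add_assoc, h2]
  have hadd : ∀ {a b : G}, a ∈ F → b ∈ F → a + b ∈ F := by
    intro a b ha hb
    rw [← hFg b hb]
    exact Finset.mem_add.2 ⟨a, ha, b, Finset.mem_singleton_self _, rfl⟩
  have hneg : ∀ {a : G}, a ∈ F → -a ∈ F := by
    intro a ha
    rw [← hFg a ha] at hF0
    obtain ⟨c, hc, d, hd, hcd⟩ := Finset.mem_add.1 hF0
    rw [Finset.mem_singleton] at hd
    rw [hd] at hcd
    rw [← eq_neg_of_add_eq_zero_left hcd]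
    exact hc
  let H : AddSubgroup G :=
    { carrier := {x | x ∈ F}
      zero_mem' := hF0
      add_mem' := fun ha hb => hadd ha hb
      neg_mem' := fun ha => hneg ha }
  have hFneg : -F = F := by
    ext z
    rw [Finset.mem_neg']
    exact ⟨fun h1 => by simpa using hneg h1, fun h1 => hneg h1⟩
  obtain ⟨t1, t2, t3⟩ := htr (-x0)
  -- pass from `T` to `S`
  have hFS : (F + S).card = F.card + κ ∧ F + S ≠ Finset.univ := by
    rcases hT with h1 | h1
    · rw [← h1]
      exact ⟨by rw [t1, t3], t2⟩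
    · have h2 : F + S = -(F + T) := by
        rw [neg_add, hFneg, h1, neg_neg]
      refine ⟨?_, ?_⟩
      · rw [h2, Finset.card_neg, t1, t3]
      · intro h3
        apply t2
        rw [h2] at h3
        rw [← Finset.card_eq_iff_eq_univ, ← Finset.card_neg, ← hF, h3, Finset.card_univ]
  refine ⟨H, F, fun x => Iff.rfl, hFS.2, ?_⟩
  intro Y hY hYS
  have := hκle (S, Y) ⟨Or.inl rfl, hY, hYS⟩
  simp only at this
  omega

end Pool.Agent.RDN
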