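import Pool.Agent.RDN.Str

/-!
# Growth of `h`-fold sumsets, structured case: the count
-/

open scoped Pointwise

namespace Pool.Agent.RDN

set_option linter.unusedSectionVars false

variable {G Q : Type*} [AddCommGroup G] [Fintype G] [DecidableEq G] [AddCommGroup Q]
  [Fintype Q] [DecidableEq Q]

private theorem sum_fib {q : G →+ Q} (S : Finset G) :
    ∑ w ∈ S.image q, (S.filter fun g => q g = w).card = S.card :=
  (Finset.card_eq_sum_card_fiberwise (f := q) (s := S) (t := S.image q)
    (fun _ hx => Finset.mem_image_of_mem _ hx)).symm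

/-- a class is almost full -/
private theorem one_class {q : G →+ Q} (hq : Function.Surjective q) (S : Finset G) {w : Q}
    (hw : w ∈ S.image q) :
    S.card + ker q ≤ (S.filter fun g => q g = w).card + (S.image q).card * ker q := by
  have h1 := sum_fib (q := q) S
  rw [← Finset.add_sum_erase _ _ hw] at h1
  have h2 : ∑ w ∈ (S.image q).erase w, (S.filter fun g => q g = w).card ≤
      ((S.image q).erase w).card * ker q := by
    refine Finset.sum_le_card_nsmul _ _ _ fun x _ => fib_le hq S x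
  have h3 := Finset.card_erase_add_one hw
  have h4 : (S.image q).card * ker q = ((S.image q).erase w).card * ker q + ker q := by
    rw [← h3]; ring
  omega

/-- two classes -/
private theorem two_class {q : G →+ Q} (hq : Function.Surjective q) (S : Finset G) {w w' : Q}
    (hw : w ∈ S.image q) (hw' : w' ∈ S.image q) (hne : w' ≠ w) :
    S.card + 2 * ker q ≤ (S.filter fun g => q g = w).card +
      (S.filter fun g => q g = w').card + (S.image q).card * ker q := by
  have h1 := sum_fib (q := q) S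
  have hw2 : w' ∈ (S.image q).erase w := Finset.mem_erase.2 ⟨hne, hw'⟩
  rw [← Finset.add_sum_erase _ _ hw, ← Finset.add_sum_erase _ _ hw2] at h1
  have h2 : ∑ w ∈ ((S.image q).erase w).erase w', (S.filter fun g => q g = w).card ≤
      (((S.image q).erase w).erase w').card * ker q := by
    refine Finset.sum_le_card_nsmul _ _ _ fun x _ => fib_le hq S x
  have h3 := Finset.card_erase_add_one hw
  have h5 := Finset.card_erase_add_one hw2
  have h4 : (S.image q).card * ker q =
      (((S.image q).erase w).erase w').card * ker q + 2 * ker q := by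
    rw [← h3, ← h5]; ring
  omega

/-- a representation with two large classes -/
private theorem full2 {q : G →+ Q} (hq : Function.Surjective q) {S : Finset G} (h : ℕ)
    {w' z₁ z₂ : Q} (hw : w' ∈ Fs (S.image q) h)
    (hz : ker q < (S.filter fun g => q g = z₁).card + (S.filter fun g => q g = z₂).card)
    {g : G} (hg : q g = w' + z₁ + z₂) : g ∈ Fs S (h + 2) := by
  rw [← Fs_image] at hw
  obtain ⟨r, hr, rfl⟩ := Finset.mem_image.1 hw
  have h1 : q (g - r) = z₁ + z₂ := by
    rw [map_sub, hg]; abel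
  obtain ⟨x, hx, y, hy, hxy⟩ := fib_add hq hz h1
  have h2 : g = r + x + y := by
    rw [add_assoc, ← hxy]; abel
  rw [h2]
  exact Finset.mem_add.2 ⟨r + x, Finset.mem_add.2 ⟨r, hr, x, hx, rfl⟩, y, hy, rfl⟩

/-- the class of a set stable under the generators is everything -/
theorem stable_univ {A : Finset ℤ} (hgen : AddSubgroup.closure (A : Set ℤ) = ⊤)
    (ρ : ℤ →+ Q) (hρ : Function.Surjective ρ) {T : Finset Q} (hT : T.Nonempty)
    (h : T + A.image ρ = T) : T = Finset.univ := by
  have h1 : ∀ n : ℤ, T + {ρ n} = T := by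
    intro n
    have hn : n ∈ AddSubgroup.closure (A : Set ℤ) := by rw [hgen]; trivial
    refine AddSubgroup.closure_induction (p := fun n _ => T + {ρ n} = T) ?_ ?_ ?_ ?_ hn
    · intro a ha
      refine Finset.eq_of_subset_of_card_le ?_ (by rw [Finset.card_add_singleton])
      intro x hx
      rw [← h]
      obtain ⟨t, ht, y, hy, rfl⟩ := Finset.mem_add.1 hx
      rw [Finset.mem_singleton] at hy
      rw [hy]
      exact Finset.mem_add.2 ⟨t, ht, ρ a, Finset.mem_image_of_mem _ ha, rfl⟩
    · rw [map_zero]; ext x; simp [Finset.mem_add]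
    · intro a b _ _ ha hb
      rw [map_add, ← Finset.singleton_add_singleton, ← add_assoc, ha, hb]
    · intro a _ ha
      have h2 : T + {ρ a} + {ρ (-a)} = T := by
        rw [add_assoc, Finset.singleton_add_singleton, ← map_add, add_neg_cancel, map_zero]
        ext x; simp [Finset.mem_add]
      rwa [ha] at h2
  rw [Finset.eq_univ_iff_forall]
  intro x
  obtain ⟨t, ht⟩ := hT
  obtain ⟨n, hn⟩ := hρ (x - t)
  rw [← h1 n, hn]
  exact Finset.mem_add.2 ⟨t, ht, x - t, Finset.mem_singleton_self _, by abel⟩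

theorem lev_str {A : Finset ℤ} {l : ℤ} {k : ℕ} (hl0 : 0 < l) (h0 : (0 : ℤ) ∈ A) (hl : l ∈ A)
    (hgen : AddSubgroup.closure (A : Set ℤ) = ⊤) (π : ℤ →+ G) (hπ : π l = 0)
    (hπs : Function.Surjective π) (hS : (A.image π).card = k) {q : G →+ Q}
    (hq : Function.Surjective q)
    (hκ : ∀ X : Finset G, X.Nonempty → X + A.image π ≠ Finset.univ →
      X.card + ((A.image π).image q).card * ker q ≤ (X + A.image π).card + ker q)
    (hsm : ((A.image π).image q).card * ker q + 2 ≤ k + ker q)
    (hC2 : 2 ≤ ((A.image π).image q).card) (h : ℕ)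
    (hR : Fs (A.image π) (h + 2) ≠ Finset.univ) :
    (Fs A (h + 1)).card + ((h + 2) * (k - 1) + 1) ≤ (Fs A (h + 2)).card := by
  classical
  set S := A.image π with hSdef
  set C := S.image q with hC
  set c := C.card with hc
  set η := ker q with hη
  have hη0 : 0 < η := ker_pos q
  set s : Q → ℕ := fun w => (S.filter fun g => q g = w).card with hs
  have h0S : (0 : G) ∈ S := Finset.mem_image.2 ⟨0, h0, map_zero π⟩
  have h0C : (0 : Q) ∈ C := Finset.mem_image.2 ⟨0, h0S, map_zero q⟩
  have f1 : ∀ w, s w ≤ η := fun w => fib_le hq S w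
  have f2 : ∀ w ∈ C, k + η ≤ s w + c * η := by
    intro w hw
    have := one_class hq S hw
    rw [hS] at this
    exact this
  have f3 : ∀ w ∈ C, ∀ w' ∈ C, w' ≠ w → k + 2 * η ≤ s w + s w' + c * η := by
    intro w hw w' hw' hne
    have := two_class hq S hw hw' hne
    rw [hS] at this
    exact this
  have hfull : ∀ w' ∈ Fs C h, ∀ z₁ ∈ C, ∀ z₂ ∈ C, η < s z₁ + s z₂ → ∀ g, q g = w' + z₁ + z₂ →
      g ∈ Fs S (h + 2) := fun w' hw' z₁ _ z₂ _ hz g hg => full2 hq h hw' hz hg
  -- the classes which are not full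
  set U := (Fs C (h + 2)).filter fun w => ∃ g, q g = w ∧ g ∉ Fs S (h + 2) with hU
  have hUA : U = ∅ ∨ ∃ z₀ ∈ C, U = {(h + 2) • z₀} ∧ (h + 2) • z₀ ∈ Fs C (h + 2) ∧
      ∀ u ∈ Fs C (h + 1), ∀ z ∈ C, (h + 2) • z₀ = u + z → z = z₀ := by
    rcases U.eq_empty_or_nonempty with hUe | ⟨w₀, hw₀⟩
    · exact Or.inl hUe
    · right
      have hU1 : ∀ w ∈ U, ∀ w' ∈ Fs C h, ∀ z₁ ∈ C, ∀ z₂ ∈ C, w = w' + z₁ + z₂ →
          z₁ = z₂ ∧ 2 * s z₁ ≤ η := by
        intro w hw w' hw' z₁ hz₁ z₂ hz₂ hwz
        obtain ⟨-, g, hg1, hg2⟩ := Finset.mem_filter.1 hw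
        have h1 : ¬ η < s z₁ + s z₂ := by
          intro h2
          exact hg2 (hfull w' hw' z₁ hz₁ z₂ hz₂ h2 g (hg1.trans hwz))
        have h2 : z₁ = z₂ := by
          by_contra h3
          have := f3 z₂ hz₂ z₁ hz₁ h3
          omega
        rw [← h2] at h1
        exact ⟨h2, by omega⟩
      have hex : ∃ z₀ ∈ C, 2 * s z₀ ≤ η := by
        have h1 := (Finset.mem_filter.1 hw₀).1
        rw [Fs_succ] at h1
        obtain ⟨u, hu, z₂, hz₂, hwu⟩ := Finset.mem_add.1 h1
        rw [Fs_succ] at hu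
        obtain ⟨w', hw', z₁, hz₁, rfl⟩ := Finset.mem_add.1 hu
        exact ⟨z₁, hz₁, (hU1 _ hw₀ w' hw' z₁ hz₁ z₂ hz₂ hwu.symm).2⟩
      obtain ⟨z₀, hz₀, hsz₀⟩ := hex
      have huq : ∀ z ∈ C, 2 * s z ≤ η → z = z₀ := by
        intro z hz hsz
        by_contra h3
        have := f3 z₀ hz₀ z hz h3
        omega
      have hU3 : ∀ w ∈ U, ∀ u ∈ Fs C (h + 1), ∀ z ∈ C, w = u + z → z = z₀ := by
        intro w hw u hu z hz hwz
        rw [Fs_succ] at hu
        obtain ⟨w', hw', z₁, hz₁, rfl⟩ := Finset.mem_add.1 hu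
        obtain ⟨h1, h2⟩ := hU1 w hw w' hw' z₁ hz₁ z hz hwz
        rw [← h1]
        exact huq z₁ hz₁ h2
      have hU4 : ∀ w ∈ U, w = (h + 2) • z₀ := by
        intro w hw
        have h1 := Fs_uniq (h + 1) w (Finset.mem_filter.1 hw).1 (hU3 w hw)
        rw [Fs_singleton, Finset.mem_singleton] at h1
        exact h1
      have hw₀' := hU4 w₀ hw₀
      refine ⟨z₀, hz₀, ?_, ?_, ?_⟩
      · ext w
        rw [Finset.mem_singleton]
        exact ⟨fun hw => hU4 w hw, fun hw => by rw [hw, ← hw₀']; exact hw₀⟩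
      · rw [← hw₀']; exact (Finset.mem_filter.1 hw₀).1
      · rw [← hw₀']; exact hU3 w₀ hw₀
  have hTU : Fs C (h + 2) = Finset.univ → U ≠ ∅ := by
    intro h1 h2
    apply hR
    rw [Finset.eq_univ_iff_forall]
    intro g
    by_contra h3
    have : q g ∈ U := Finset.mem_filter.2 ⟨by rw [h1]; exact Finset.mem_univ _, g, rfl, h3⟩
    rw [h2] at this
    exact absurd this (Finset.notMem_empty _)
  -- the set of classes grows
  have hstab : Fs C (h + 2) ≠ Fs C (h + 1) := by
    intro h1
    have h2 : Fs C (h + 1) = Finset.univ := by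
      refine stable_univ hgen (q.comp π) (hq.comp hπs) (Fs_nonempty h0C _) ?_
      have h3 : A.image (q.comp π) = C := by
        rw [hC, hSdef, Finset.image_image]; rfl
      rw [h3, ← Fs_succ, h1]
    rcases hUA with h3 | ⟨z₀, hz₀, -, -, h5⟩
    · exact hTU (h1.trans h2) h3
    · obtain ⟨z, hz, hzne⟩ := Finset.exists_mem_ne (by omega : 1 < C.card) z₀
      exact hzne (h5 ((h + 2) • z₀ - z) (by rw [h2]; exact Finset.mem_univ _) z hz (by abel))
  have hT1 : Fs C (h + 1) ≠ Finset.univ := by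
    intro h1
    apply hstab
    rw [h1, ← Finset.univ_subset_iff, ← h1]
    exact Fs_step h0C _
  have hT : 1 + (h + 2) * c ≤ (Fs C (h + 2)).card + (h + 2) := by
    by_cases h1 : Fs C (h + 2) = Finset.univ
    · rcases hUA with h3 | ⟨z₀, hz₀, -, -, h5⟩
      · exact absurd h3 (hTU h1)
      · have h6 : Disjoint (Fs C (h + 1)) ((C.erase z₀).image fun z => (h + 2) • z₀ - z) := by
          rw [Finset.disjoint_left]
          intro u hu hu'
          obtain ⟨z, hz, rfl⟩ := Finset.mem_image.1 hu'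
          obtain ⟨hz1, hz2⟩ := Finset.mem_erase.1 hz
          exact hz1 (h5 _ hu z hz2 (by abel))
        have h7 := Finset.card_le_univ (Fs C (h + 1) ∪
          ((C.erase z₀).image fun z => (h + 2) • z₀ - z))
        rw [Finset.card_union_of_disjoint h6, Finset.card_image_of_injective _
          (fun a b hab => sub_right_injective hab), Finset.card_erase_of_mem hz₀] at h7
        have h8 : 1 + (h + 1) * c ≤ (Fs C (h + 1)).card + (h + 1) :=
          growth hq h0S hκ (h + 1) hT1
        rw [h1, Finset.card_univ]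
        have h9 : (h + 2) * c = (h + 1) * c + c := by ring
        omega
    · exact growth hq h0S hκ (h + 2) h1
  -- gains
  set D := Fs A (h + 2) \ Fs A (h + 1) with hD
  set gain : Q → ℕ := fun w => (D.filter fun x => q (π x) = w).card with hgain
  have hcls : ∀ j, ∀ x ∈ Fs A j, q (π x) ∈ Fs C j := by
    intro j x hx
    rw [hC, ← Fs_image, hSdef, ← Fs_image]
    exact Finset.mem_image_of_mem _ (Finset.mem_image_of_mem _ hx)
  have htot : D.card = ∑ w ∈ Fs C (h + 2), gain w :=
    Finset.card_eq_sum_card_fiberwise (f := fun x => q (π x)) (s := D) (t := Fs C (h + 2))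
      (fun x hx => hcls _ x (Finset.mem_sdiff.1 (Finset.mem_coe.1 hx)).1)
  have hDc : D.card + (Fs A (h + 1)).card = (Fs A (h + 2)).card := by
    rw [hD, Finset.card_sdiff_add_card_eq_card (Fs_step h0 (h + 1))]
  have gF : ∀ w ∈ Fs C (h + 2), w ∉ U → η ≤ gain w := by
    intro w hw hwU
    have h1 := gain_ge hl0 hl π hπ (h + 1) (fun g => q g = w)
    refine le_trans ?_ h1
    rw [hη, ← fib_card hq w]
    refine Finset.card_le_card ?_
    intro g hg
    have hg' := (Finset.mem_filter.1 hg).2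
    refine Finset.mem_filter.2 ⟨?_, hg'⟩
    by_contra h3
    exact hwU (Finset.mem_filter.2 ⟨hw, g, hg', h3⟩)
  have gN : ∀ w, w ∉ Fs C (h + 1) → gain w = ((Fs A (h + 2)).filter fun x => q (π x) = w).card := by
    intro w hw
    rw [hgain]
    simp only
    congr 1
    ext x
    simp only [hD, Finset.mem_filter, Finset.mem_sdiff]
    constructor
    · rintro ⟨⟨h1, -⟩, h2⟩
      exact ⟨h1, h2⟩
    · rintro ⟨h1, h2⟩
      refine ⟨⟨h1, ?_⟩, h2⟩
      intro h3
      exact hw (h2 ▸ hcls _ x h3)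
  have hAs : ∀ z, s z ≤ (A.filter fun a => (q.comp π) a = z).card := by
    intro z
    rw [hs]
    simp only
    refine le_trans (Finset.card_le_card ?_) (Finset.card_image_le (f := π))
    intro g hg
    obtain ⟨hg1, hg2⟩ := Finset.mem_filter.1 hg
    obtain ⟨a, ha, rfl⟩ := Finset.mem_image.1 hg1
    exact Finset.mem_image.2 ⟨a, Finset.mem_filter.2 ⟨ha, hg2⟩, rfl⟩
  -- the two counts
  have hsub : ∀ B : Finset Q, B ⊆ Fs C (h + 2) → (∀ w ∈ Fs C (h + 2), w ∉ B → w ∉ U) →
      ((Fs C (h + 2)).card - B.card) * η + ∑ w ∈ B, gain w ≤ D.card := by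
    intro B hB hBU
    rw [htot, ← Finset.sum_sdiff hB]
    refine Nat.add_le_add_right ?_ _
    rw [← Finset.card_sdiff_of_subset hB]
    refine Finset.card_nsmul_le_sum _ _ _ ?_
    intro w hw
    obtain ⟨hw1, hw2⟩ := Finset.mem_sdiff.1 hw
    exact gF w hw1 (hBU w hw1 hw2)
  have hK : ((h : ℤ) + 2) * ((k - 1 : ℕ) : ℤ) + 1 ≤ (D.card : ℤ) → 
      (Fs A (h + 1)).card + ((h + 2) * (k - 1) + 1) ≤ (Fs A (h + 2)).card := by
    intro h1
    have h2 : (h + 2) * (k - 1) + 1 ≤ D.card := by exact_mod_cast h1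
    omega
  apply hK
  have hk1 : 1 ≤ k := by
    rw [← hS]; exact Finset.card_pos.2 ⟨0, h0S⟩
  have hkz : ((k - 1 : ℕ) : ℤ) = (k : ℤ) - 1 := by push_cast [Nat.cast_sub hk1]; ring
  rw [hkz]
  have case1 : ∀ w₁ ∈ Fs C (h + 2), w₁ ∉ Fs C (h + 1) → (∀ w ∈ U, w = w₁) →
      ((h : ℤ) + 2) * ((k : ℤ) - 1) + 1 ≤ (D.card : ℤ) := by
    intro w₁ hw₁ hw₁' hUw
    have h1 := hsub {w₁} (Finset.singleton_subset_iff.2 hw₁) (by
      intro w _ hw hwU
      exact hw (Finset.mem_singleton.2 (hUw w hwU)))
    rw [Finset.sum_singleton, Finset.card_singleton, gN w₁ hw₁'] at h1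
    have h2 := class_ge (A := A) (q.comp π) C (k + η - c * η) (fun z hz => by
      have := f2 z hz
      have := hAs z
      omega) (by omega) (h + 1) w₁ hw₁
    have h3 : ((Fs A (h + 1 + 1)).filter fun x => (q.comp π) x = w₁).card =
      ((Fs A (h + 2)).filter fun x => q (π x) = w₁).card := rfl
    rw [h3] at h2
    have ht1 : 1 ≤ (Fs C (h + 2)).card := Finset.card_pos.2 ⟨w₁, hw₁⟩
    have h4 : ((k + η - c * η : ℕ) : ℤ) = (k : ℤ) + η - c * η := by
      rw [Nat.cast_sub (by omega)]; push_cast; ring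
    have h2' : ((h : ℤ) + 1 + 1) * ((k : ℤ) + η - c * η) ≤
        (((Fs A (h + 2)).filter fun x => q (π x) = w₁).card : ℤ) + (h + 1) := by
      rw [← h4]; exact_mod_cast h2
    have h1' : (((Fs C (h + 2)).card : ℤ) - 1) * η +
        (((Fs A (h + 2)).filter fun x => q (π x) = w₁).card : ℤ) ≤ D.card := by
      have := Nat.cast_le (α := ℤ) |>.2 h1
      push_cast [Nat.cast_sub ht1] at this
      exact this
    have h5 : ((h : ℤ) + 2) * ((c : ℤ) - 1) ≤ ((Fs C (h + 2)).card : ℤ) - 1 := by
      have : (1 : ℤ) + (h + 2) * c ≤ (Fs C (h + 2)).card + (h + 2) := by exact_mod_cast hT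
      linarith
    have h6 := mul_le_mul_of_nonneg_right h5 (by positivity : (0 : ℤ) ≤ (η : ℤ))
    nlinarith
  obtain ⟨w₂, hw₂, hw₂'⟩ : ∃ w ∈ Fs C (h + 2), w ∉ Fs C (h + 1) := by
    by_contra h1
    push Not at h1
    exact hstab (Finset.Subset.antisymm (fun w hw => h1 w hw) (Fs_step h0C _))
  rcases hUA with hUe | ⟨z₀, hz₀, hUz, hw₀, hu⟩
  · exact case1 w₂ hw₂ hw₂' (by rw [hUe]; intro w hw; exact absurd hw (Finset.notMem_empty _))
  · by_cases hz : z₀ = 0
    · -- the class of zero is deficient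
      subst hz
      rw [smul_zero] at hUz hw₀ hu
      have hw20 : w₂ ≠ 0 := fun h1 => hw₂' (h1 ▸ zero_mem_Fs h0C _)
      have h1 := hsub {0, w₂} (by
        intro w hw
        rcases Finset.mem_insert.1 hw with rfl | hw
        · exact hw₀
        · rw [Finset.mem_singleton.1 hw]; exact hw₂) (by
        intro w _ hw hwU
        rw [hUz, Finset.mem_singleton] at hwU
        exact hw (by rw [hwU]; exact Finset.mem_insert_self _ _))
      rw [Finset.sum_pair hw20.symm, Finset.card_pair hw20.symm, gN w₂ hw₂'] at h1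
      have g0 : s 0 ≤ gain 0 := by
        refine le_trans (Finset.card_le_card ?_)
          (gain_ge hl0 hl π hπ (h + 1) (fun g => q g = 0))
        intro g hg
        obtain ⟨hg1, hg2⟩ := Finset.mem_filter.1 hg
        refine Finset.mem_filter.2 ⟨?_, hg2⟩
        refine Fs_le h0S (by omega : 1 ≤ h + 1 + 1) ?_
        rw [Fs_one]; exact hg1
      have hw₂e : w₂ ∈ Fs (C.erase 0) (h + 1 + 1) := by
        rcases Finset.mem_union.1 (Fs_erase (h + 1) hw₂) with h2 | h2
        · exact absurd h2 hw₂'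
        · exact h2
      have h2 := class_ge (A := A) (q.comp π) (C.erase 0) (k + 2 * η - c * η - s 0)
        (fun z hz => by
          obtain ⟨hz1, hz2⟩ := Finset.mem_erase.1 hz
          have := f3 0 h0C z hz2 hz1
          have := hAs z
          omega) (by
            have := f1 0
            omega) (h + 1) w₂ hw₂e
      have h3 : ((Fs A (h + 1 + 1)).filter fun x => (q.comp π) x = w₂).card =
        ((Fs A (h + 2)).filter fun x => q (π x) = w₂).card := rfl
      rw [h3] at h2
      have hsub2 : ({0, w₂} : Finset Q) ⊆ Fs C (h + 2) := by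
        intro w hw
        rcases Finset.mem_insert.1 hw with rfl | hw
        · exact hw₀
        · rw [Finset.mem_singleton.1 hw]; exact hw₂
      have ht1 : 2 ≤ (Fs C (h + 2)).card := by
        have h10 := Finset.card_le_card hsub2
        rw [Finset.card_pair hw20.symm] at h10
        exact h10
      have hs0 : (s 0 : ℤ) ≤ η := by exact_mod_cast f1 0
      have h4 : ((k + 2 * η - c * η - s 0 : ℕ) : ℤ) = (k : ℤ) + 2 * η - c * η - s 0 := by
        have := f1 0
        rw [Nat.cast_sub (by omega), Nat.cast_sub (by omega)]; push_cast; ring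
      have h2' : ((h : ℤ) + 1 + 1) * ((k : ℤ) + 2 * η - c * η - s 0) ≤
          (((Fs A (h + 2)).filter fun x => q (π x) = w₂).card : ℤ) + (h + 1) := by
        rw [← h4]; exact_mod_cast h2
      have h1' : (((Fs C (h + 2)).card : ℤ) - 2) * η + (s 0 +
          (((Fs A (h + 2)).filter fun x => q (π x) = w₂).card : ℤ)) ≤ D.card := by
        have h7 := Nat.cast_le (α := ℤ) |>.2 h1
        push_cast [Nat.cast_sub ht1] at h7
        have h8 : (s 0 : ℤ) ≤ gain 0 := by exact_mod_cast g0
        linarith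
      have h5 : ((h : ℤ) + 2) * ((c : ℤ) - 1) ≤ ((Fs C (h + 2)).card : ℤ) - 1 := by
        have : (1 : ℤ) + (h + 2) * c ≤ (Fs C (h + 2)).card + (h + 2) := by exact_mod_cast hT
        linarith
      have h6 := mul_le_mul_of_nonneg_right h5 (by positivity : (0 : ℤ) ≤ (η : ℤ))
      have h9 := mul_nonneg (by positivity : (0 : ℤ) ≤ (h : ℤ) + 1) (sub_nonneg.2 hs0)
      nlinarith
    · refine case1 _ hw₀ ?_ ?_
      · intro h1
        exact hz (hu _ h1 0 h0C (add_zero _).symm).symm
      · intro w hw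
        rw [hUz, Finset.mem_singleton] at hw
        exact hw

end Pool.Agent.RDN
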