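import Pool.Agent.RDN.Iso
import Pool.Agent.RDN.StrB

/-!
# The growth theorem for `h`-fold sumsets (Lev)
-/

open scoped Pointwise

namespace Pool.Agent.RDN

private theorem card_modl {A : Finset ℤ} {l k : ℕ} (hl0 : 0 < l) (h0 : (0 : ℤ) ∈ A)
    (hl : (l : ℤ) ∈ A) (hA : ∀ a ∈ A, 0 ≤ a ∧ a ≤ l) (hk : A.card = k + 1) :
    (A.image (Int.castAddHom (ZMod l))).card = k := by
  have h1 : A.image (Int.castAddHom (ZMod l)) =
      (A.erase (l : ℤ)).image (Int.castAddHom (ZMod l)) := by
    ext z
    constructor
    · intro hz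
      obtain ⟨a, ha, rfl⟩ := Finset.mem_image.1 hz
      by_cases hal : a = l
      · refine Finset.mem_image.2 ⟨0, Finset.mem_erase.2 ⟨by omega, h0⟩, ?_⟩
        rw [hal]
        simp
      · exact Finset.mem_image.2 ⟨a, Finset.mem_erase.2 ⟨hal, ha⟩, rfl⟩
    · intro hz
      exact Finset.image_subset_image (Finset.erase_subset _ _) hz
  rw [h1, Finset.card_image_of_injOn, Finset.card_erase_of_mem hl, hk, Nat.add_sub_cancel]
  intro a ha b hb hab
  obtain ⟨ha1, ha2⟩ := Finset.mem_erase.1 (Finset.mem_coe.1 ha)
  obtain ⟨hb1, hb2⟩ := Finset.mem_erase.1 (Finset.mem_coe.1 hb)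
  have h2 : ((a : ZMod l)) = (b : ZMod l) := hab
  rw [ZMod.intCast_eq_intCast_iff_dvd_sub] at h2
  obtain ⟨a1, a2⟩ := hA a ha2
  obtain ⟨b1, b2⟩ := hA b hb2
  have a3 : a < l := lt_of_le_of_ne a2 ha1
  have b3 : b < l := lt_of_le_of_ne b2 hb1
  have h3 : b - a = 0 := Int.eq_zero_of_abs_lt_dvd h2 (by rw [abs_lt]; constructor <;> omega)
  omega

theorem lev {A : Finset ℤ} {l k : ℕ} (hl0 : 0 < l) (h0 : (0 : ℤ) ∈ A) (hl : (l : ℤ) ∈ A)
    (hA : ∀ a ∈ A, 0 ≤ a ∧ a ≤ l) (hgen : AddSubgroup.closure (A : Set ℤ) = ⊤)
    (hk : A.card = k + 1) (h : ℕ) :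
    (Fs A h).card + min l ((h + 1) * (k - 1) + 1) ≤ (Fs A (h + 1)).card := by
  classical
  have : NeZero l := ⟨by omega⟩
  have hS := card_modl hl0 h0 hl hA hk
  set π : ℤ →+ ZMod l := Int.castAddHom (ZMod l) with hπd
  set S := A.image π with hSd
  have h0S : (0 : ZMod l) ∈ S := Finset.mem_image.2 ⟨0, h0, map_zero π⟩
  have hSne : S.Nonempty := ⟨0, h0S⟩
  have hk1 : 1 ≤ k := by rw [← hS]; exact Finset.card_pos.2 hSne
  have hπl : π (l : ℤ) = 0 := by simp [hπd]
  have hπs : Function.Surjective π := ZMod.intCast_surjective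
  have hlz : (0 : ℤ) < (l : ℤ) := by exact_mod_cast hl0
  obtain _ | h := h
  · rw [Fs_zero, Finset.card_singleton, Fs_one, hk]
    have : min l ((0 + 1) * (k - 1) + 1) ≤ (0 + 1) * (k - 1) + 1 := min_le_right _ _
    omega
  · have hall := gain_all hlz h0 hl π hπl (h + 1)
    rw [← hSd] at hall
    by_cases hR : Fs S (h + 1 + 1) = Finset.univ
    · rw [hR, Finset.card_univ, ZMod.card] at hall
      have : min l ((h + 1 + 1) * (k - 1) + 1) ≤ l := min_le_left _ _
      omega
    · obtain ⟨H, F, hF, hFS, hκ⟩ := iso hSne ⟨Fs S (h + 1), Fs_nonempty h0S _, hR⟩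
      by_cases hc : F.card + (k - 1) ≤ (F + S).card
      · have h1 : ∀ j, j ≤ h + 2 → 1 + j * (k - 1) ≤ (Fs S j).card := by
          intro j
          induction j with
          | zero => intro _; simp [Fs_zero]
          | succ n ih =>
            intro hn
            have h2 := ih (by omega)
            have h3 := hκ (Fs S n) (Fs_nonempty h0S _) (by
              intro h4
              apply hR
              rw [← Finset.univ_subset_iff, ← h4]
              exact Fs_le h0S (by omega : n + 1 ≤ h + 1 + 1))
            have h5 : (Fs S n + S).card = (Fs S (n + 1)).card := rfl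
            have h6 : (n + 1) * (k - 1) = n * (k - 1) + (k - 1) := by ring
            omega
        have h2 := h1 (h + 2) le_rfl
        have h3 : min l ((h + 1 + 1) * (k - 1) + 1) ≤ (h + 1 + 1) * (k - 1) + 1 :=
          min_le_right _ _
        have h4 : (h + 1 + 1) * (k - 1) = (h + 2) * (k - 1) := by ring
        have h5 : (Fs S (h + 1 + 1)).card = (Fs S (h + 2)).card := rfl
        omega
      · have : Fintype (ZMod l ⧸ H) := Fintype.ofFinite _
        set q : ZMod l →+ ZMod l ⧸ H := QuotientAddGroup.mk' H with hq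
        have hqs : Function.Surjective q := QuotientAddGroup.mk'_surjective H
        have hq0 : ∀ g, q g = 0 ↔ g ∈ H := fun g => QuotientAddGroup.eq_zero_iff g
        have hker : ker q = F.card := by
          rw [ker]
          congr 1
          ext g
          rw [Finset.mem_filter, hF, hq0]
          simp
        have hFSe : F + S = Finset.univ.filter fun g => q g ∈ S.image q := by
          ext g
          constructor
          · intro hg
            obtain ⟨f, hf, s, hs, rfl⟩ := Finset.mem_add.1 hg
            refine Finset.mem_filter.2 ⟨Finset.mem_univ _, ?_⟩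
            rw [map_add, (hq0 f).2 ((hF f).1 hf), zero_add]
            exact Finset.mem_image_of_mem _ hs
          · intro hg
            obtain ⟨s, hs, hsg⟩ := Finset.mem_image.1 (Finset.mem_filter.1 hg).2
            refine Finset.mem_add.2 ⟨g - s, (hF _).2 ((hq0 _).1 ?_), s, hs, by abel⟩
            rw [map_sub, hsg, sub_self]
        have hFSc : (F + S).card = (S.image q).card * ker q := by
          rw [hFSe, pre_card hqs]
        have hC2 : 2 ≤ (S.image q).card := by
          by_contra h1
          have h0C : (0 : ZMod l ⧸ H) ∈ S.image q := Finset.mem_image.2 ⟨0, h0S, map_zero q⟩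
          have h2 : S.image q = {0} := by
            refine (Finset.eq_of_subset_of_card_le (Finset.singleton_subset_iff.2 h0C) ?_).symm
            rw [Finset.card_singleton]
            omega
          have h3 : A.image (q.comp π) = {0} := by
            rw [← h2, hSd, Finset.image_image]; rfl
          have h4 := stable_univ hgen (q.comp π) (hqs.comp hπs)
            (Finset.singleton_nonempty (0 : ZMod l ⧸ H)) (by
              rw [h3, Finset.singleton_add_singleton, add_zero])
          apply hFS
          rw [hFSe, h2, h4]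
          ext g
          simp
        have h1 := lev_str hlz h0 hl hgen π hπl hπs hS hqs (fun X hX hXS => by
          have := hκ X hX hXS
          rw [← hSd, ← hFSc, hker]
          exact this) (by
            rw [← hSd, ← hFSc, hker]
            omega) hC2 h hR
        have h3 : min l ((h + 1 + 1) * (k - 1) + 1) ≤ (h + 1 + 1) * (k - 1) + 1 :=
          min_le_right _ _
        exact le_trans (Nat.add_le_add_left h3 _) h1

end Pool.Agent.RDN
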