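import Pool.Agent.RDN.Red

/-!
# Colourings
-/

open scoped Pointwise

namespace Pool.Agent.RDN

/-- elements of the `n`-fold sumset as sums -/
theorem mem_Fs {A : Finset ℤ} (n : ℕ) : ∀ x ∈ Fs A n,
    ∃ f : Fin n → ℤ, (∀ i, f i ∈ A) ∧ ∑ i, f i = x := by
  induction n with
  | zero =>
    intro x hx
    rw [Fs_zero, Finset.mem_singleton] at hx
    exact ⟨fun _ => 0, fun i => i.elim0, by rw [hx]; simp⟩
  | succ n ih =>
    intro x hx
    rw [Fs_succ] at hx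
    obtain ⟨u, hu, a, ha, rfl⟩ := Finset.mem_add.1 hx
    obtain ⟨f, hf, hfu⟩ := ih u hu
    refine ⟨Fin.snoc f a, ?_, ?_⟩
    · intro i
      refine Fin.lastCases ?_ (fun j => ?_) i
      · rw [Fin.snoc_last]; exact ha
      · rw [Fin.snoc_castSucc]; exact hf j
    · rw [Fin.sum_univ_castSucc]
      simp only [Fin.snoc_castSucc, Fin.snoc_last]
      rw [hfu]

/-- the density theorem -/
theorem dens_sum {n r b : ℕ} (hr : 1 ≤ r) (hrn : r ≤ n) (hb : 1 ≤ b)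
    (hdiv : ∀ j, 1 ≤ j → j ≤ r → j ∣ b) (B : Finset ℤ) (hB : (b + n - 1) / n < B.card)
    (hdiam : ∀ x ∈ B, ∀ y ∈ B, x - y ≤ (r * ((b + n - 1) / n) : ℕ)) :
    ∃ x y : Fin n → ℤ, (∀ i, x i ∈ B ∧ y i ∈ B) ∧ ∑ i, x i = ∑ i, y i + b := by
  obtain ⟨B', hB'B, hB'⟩ := Finset.exists_subset_card_eq
    (show (b + n - 1) / n + 1 ≤ B.card from hB)
  obtain ⟨u, hu, v, hv, huv⟩ := main_dens hr hrn hb rfl hdiv hB'
    (fun x hx y hy => hdiam x (hB'B hx) y (hB'B hy))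
  obtain ⟨x, hx, hxu⟩ := mem_Fs n u hu
  obtain ⟨y, hy, hyv⟩ := mem_Fs n v hv
  exact ⟨x, y, fun i => ⟨hB'B (hx i), hB'B (hy i)⟩, by rw [hxu, hyv, huv]⟩

/-- the upper bound -/
theorem rado_upper {n r b N : ℕ} (hr : 1 ≤ r) (hrn : r ≤ n) (hb : 1 ≤ b)
    (hdiv : ∀ j, 1 ≤ j → j ≤ r → j ∣ b) (hN : r * ((b + n - 1) / n) + 1 ≤ N)
    (c : ℕ → Fin r) : ∃ x y : Fin n → ℕ, ∃ j : Fin r,
      (∀ i, (1 ≤ x i ∧ x i ≤ N ∧ c (x i) = j) ∧ (1 ≤ y i ∧ y i ≤ N ∧ c (y i) = j)) ∧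
      ∑ i, x i = ∑ i, y i + b := by
  classical
  set k := (b + n - 1) / n with hk
  have h1 : ∃ j ∈ (Finset.univ : Finset (Fin r)),
      k < ((Finset.Icc 1 (r * k + 1)).filter fun x => c x = j).card := by
    refine Finset.exists_lt_card_fiber_of_mul_lt_card_of_maps_to
      (fun x _ => Finset.mem_univ _) ?_
    rw [Finset.card_univ, Fintype.card_fin, Nat.card_Icc]
    omega
  obtain ⟨j, -, hj⟩ := h1
  set S := (Finset.Icc 1 (r * k + 1)).filter fun x => c x = j with hS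
  have hSm : ∀ x ∈ S, 1 ≤ x ∧ x ≤ r * k + 1 ∧ c x = j := by
    intro x hx
    obtain ⟨h2, h3⟩ := Finset.mem_filter.1 hx
    obtain ⟨h4, h5⟩ := Finset.mem_Icc.1 h2
    exact ⟨h4, h5, h3⟩
  obtain ⟨x, y, hxy, hs⟩ := dens_sum hr hrn hb hdiv (S.image fun x : ℕ => (x : ℤ)) (by
    rw [Finset.card_image_of_injective _ Nat.cast_injective]
    exact hj) (by
    intro u hu v hv
    obtain ⟨u', hu', rfl⟩ := Finset.mem_image.1 hu
    obtain ⟨v', hv', rfl⟩ := Finset.mem_image.1 hv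
    have := hSm u' hu'
    have := hSm v' hv'
    rw [← hk]
    omega)
  have hx : ∀ i, ∃ u ∈ S, (u : ℤ) = x i := fun i => Finset.mem_image.1 (hxy i).1
  have hy : ∀ i, ∃ u ∈ S, (u : ℤ) = y i := fun i => Finset.mem_image.1 (hxy i).2
  choose x' hx'S hx' using hx
  choose y' hy'S hy' using hy
  refine ⟨x', y', j, fun i => ⟨?_, ?_⟩, ?_⟩
  · have := hSm _ (hx'S i)
    exact ⟨this.1, by omega, this.2.2⟩
  · have := hSm _ (hy'S i)
    exact ⟨this.1, by omega, this.2.2⟩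
  · have h2 : ∑ i, (x' i : ℤ) = ∑ i, (y' i : ℤ) + b := by
      rw [Finset.sum_congr rfl fun i _ => hx' i, Finset.sum_congr rfl fun i _ => hy' i]
      exact hs
    exact_mod_cast h2

/-- intervals -/
theorem rado_lower {n r b : ℕ} (hn : 1 ≤ n) (hr : 1 ≤ r) (hb : 1 ≤ b) : ∃ c : ℕ → Fin r,
    ¬ ∃ x y : Fin n → ℕ, ∃ j : Fin r,
      (∀ i, (1 ≤ x i ∧ x i ≤ r * ((b + n - 1) / n) ∧ c (x i) = j) ∧
        (1 ≤ y i ∧ y i ≤ r * ((b + n - 1) / n) ∧ c (y i) = j)) ∧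
      ∑ i, x i = ∑ i, y i + b := by
  set k := (b + n - 1) / n with hk
  have hk1 : 1 ≤ k := by
    rw [hk, Nat.one_le_div_iff (by omega)]; omega
  have hkb : n * (k - 1) < b := by
    obtain ⟨m, hm⟩ : ∃ m, k = m + 1 := ⟨k - 1, by omega⟩
    have h1 := Nat.div_mul_le_self (b + n - 1) n
    rw [← hk, hm] at h1
    have h2 : (m + 1) * n = n * m + n := by ring
    rw [hm, Nat.add_sub_cancel]
    omega
  refine ⟨fun x => ⟨((x - 1) / k) % r, Nat.mod_lt _ hr⟩, ?_⟩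
  rintro ⟨x, y, j, hxy, hs⟩
  have hval : ∀ z, 1 ≤ z → z ≤ r * k → (z - 1) / k % r = (z - 1) / k := by
    intro z h1 h2
    refine Nat.mod_eq_of_lt ?_
    rw [Nat.div_lt_iff_lt_mul hk1]
    omega
  have hlt : ∀ i, x i ≤ y i + (k - 1) := by
    intro i
    obtain ⟨⟨a1, a2, a3⟩, b1, b2, b3⟩ := hxy i
    have c1 : (x i - 1) / k % r = j := congrArg Fin.val a3
    have c2 : (y i - 1) / k % r = j := congrArg Fin.val b3
    rw [hval _ a1 a2] at c1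
    rw [hval _ b1 b2] at c2
    have d1 := Nat.div_add_mod (x i - 1) k
    have d2 := Nat.div_add_mod (y i - 1) k
    have d3 := Nat.mod_lt (x i - 1) hk1
    rw [c1] at d1
    rw [c2] at d2
    omega
  have h1 : ∑ i, x i ≤ ∑ i, (y i + (k - 1)) := Finset.sum_le_sum fun i _ => hlt i
  rw [Finset.sum_add_distrib, Finset.sum_const, Finset.card_univ, Fintype.card_fin,
    smul_eq_mul] at h1
  omega

/-- residues -/
theorem rado_mod {n r b j : ℕ} (hj : 1 ≤ j) (hjr : j ≤ r) (hjb : ¬ j ∣ b) :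
    ∃ c : ℕ → Fin r, ¬ ∃ x y : Fin n → ℕ, ∃ i : Fin r,
      (∀ t, c (x t) = i ∧ c (y t) = i) ∧ ∑ t, x t = ∑ t, y t + b := by
  refine ⟨fun x => ⟨x % j, lt_of_lt_of_le (Nat.mod_lt _ hj) hjr⟩, ?_⟩
  rintro ⟨x, y, i, hxy, hs⟩
  apply hjb
  have h1 : ∀ t, x t ≡ y t [MOD j] := by
    intro t
    have c1 : x t % j = i := congrArg Fin.val (hxy t).1
    have c2 : y t % j = i := congrArg Fin.val (hxy t).2
    exact c1.trans c2.symm
  have h2 : ∑ t, x t ≡ ∑ t, y t [MOD j] := by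
    unfold Nat.ModEq
    rw [Finset.sum_nat_mod, Finset.sum_nat_mod Finset.univ j (fun t => y t)]
    rw [Finset.sum_congr rfl fun t _ => h1 t]
  rw [hs] at h2
  have h3 : ∑ t, y t + b ≡ ∑ t, y t + 0 [MOD j] := by rw [add_zero]; exact h2
  exact (Nat.modEq_zero_iff_dvd).1 (Nat.ModEq.add_left_cancel' _ h3)

end Pool.Agent.RDN
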