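import Pool.Agent.RDN.Eqn

/-!
# Sets of `k + 1` integers of diameter at most `r k`
-/

open scoped Pointwise

namespace Pool.Agent.RDN

theorem Fs_affine {A B : Finset ℤ} {d m : ℤ} (hAB : ∀ a ∈ A, d * a + m ∈ B) (n : ℕ) :
    ∀ x ∈ Fs A n, d * x + n * m ∈ Fs B n := by
  induction n with
  | zero =>
    intro x hx
    rw [Fs_zero, Finset.mem_singleton] at hx
    rw [hx, Fs_zero]
    simp
  | succ n ih =>
    intro x hx
    rw [Fs_succ] at hx
    obtain ⟨u, hu, a, ha, rfl⟩ := Finset.mem_add.1 hx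
    rw [Fs_succ]
    refine Finset.mem_add.2 ⟨_, ih u hu, _, hAB a ha, ?_⟩
    push_cast
    ring

theorem Fs_add_mem {M : Type*} [AddCommMonoid M] [DecidableEq M] {A : Finset M} {i : ℕ} {x : M}
    (hx : x ∈ Fs A i) (j : ℕ) : ∀ y ∈ Fs A j, x + y ∈ Fs A (i + j) := by
  induction j with
  | zero =>
    intro y hy
    rw [Fs_zero, Finset.mem_singleton] at hy
    rw [hy, add_zero, add_zero]
    exact hx
  | succ n ih =>
    intro y hy
    rw [Fs_succ] at hy
    obtain ⟨u, hu, a, ha, rfl⟩ := Finset.mem_add.1 hy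
    rw [← add_assoc, ← add_assoc, Fs_succ]
    exact Finset.mem_add.2 ⟨_, ih u hu, a, ha, rfl⟩

theorem mul_mem_Fs {A : Finset ℤ} {a : ℤ} (ha : a ∈ A) (j : ℕ) : (j : ℤ) * a ∈ Fs A j := by
  have h1 : Fs {a} j ⊆ Fs A j := Fs_mono (Finset.singleton_subset_iff.2 ha) j
  rw [Fs_singleton] at h1
  have := h1 (Finset.mem_singleton_self _)
  rwa [nsmul_eq_mul] at this

private theorem not_top {A : Finset ℤ} (hgen : AddSubgroup.closure (A : Set ℤ) = ⊤) {g : ℤ}
    (hg : ∀ a ∈ A, g ∣ a) : g ∣ 1 := by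
  have h1 : AddSubgroup.closure (A : Set ℤ) ≤ AddSubgroup.zmultiples g := by
    rw [AddSubgroup.closure_le]
    intro a ha
    exact Int.mem_zmultiples_iff.2 (hg a ha)
  rw [hgen] at h1
  exact Int.mem_zmultiples_iff.1 (h1 trivial)

/-- the exceptional case `n = 6`, `k = 2`, `l = 8`, `b = 12` -/
private theorem six {A : Finset ℤ} (h0 : (0 : ℤ) ∈ A) (hl : (8 : ℤ) ∈ A)
    (hA : ∀ a ∈ A, 0 ≤ a ∧ a ≤ 8) (hgen : AddSubgroup.closure (A : Set ℤ) = ⊤)
    (hk : A.card = 3) : ∃ x ∈ Fs A 6, ∃ y ∈ Fs A 6, x = y + 12 := by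
  have h8 : (8 : ℤ) ∈ A.erase 0 := Finset.mem_erase.2 ⟨by norm_num, hl⟩
  have hc : ((A.erase 0).erase 8).card = 1 := by
    rw [Finset.card_erase_of_mem h8, Finset.card_erase_of_mem h0, hk]
  obtain ⟨a, ha⟩ := Finset.card_eq_one.1 hc
  have haA : a ∈ (A.erase 0).erase 8 := by rw [ha]; exact Finset.mem_singleton_self _
  obtain ⟨a8, haA⟩ := Finset.mem_erase.1 haA
  obtain ⟨a0, haA⟩ := Finset.mem_erase.1 haA
  obtain ⟨a1, a2⟩ := hA a haA
  have hmem : ∀ x ∈ A, x = 0 ∨ x = 8 ∨ x = a := by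
    intro x hx
    by_cases hx0 : x = 0
    · exact Or.inl hx0
    · by_cases hx8 : x = 8
      · exact Or.inr (Or.inl hx8)
      · have : x ∈ (A.erase 0).erase 8 :=
          Finset.mem_erase.2 ⟨hx8, Finset.mem_erase.2 ⟨hx0, hx⟩⟩
        rw [ha, Finset.mem_singleton] at this
        exact Or.inr (Or.inr this)
  have hodd : ¬ (2 : ℤ) ∣ a := by
    intro h2
    have := not_top hgen (g := 2) (by
      intro x hx
      rcases hmem x hx with rfl | rfl | rfl
      · exact dvd_zero _
      · norm_num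
      · exact h2)
    omega
  have hz : (0 : ℤ) ∈ Fs A 6 := zero_mem_Fs h0 6
  have hle : ∀ {i : ℕ} {x : ℤ}, i ≤ 6 → x ∈ Fs A i → x ∈ Fs A 6 := fun hi hx => Fs_le h0 hi hx
  have hcases : a = 1 ∨ a = 3 ∨ a = 5 ∨ a = 7 := by omega
  rcases hcases with rfl | rfl | rfl | rfl
  · refine ⟨12, hle (by norm_num : 1 + 4 ≤ 6) ?_, 0, hz, by norm_num⟩
    have := Fs_add_mem (mul_mem_Fs hl 1) 4 _ (mul_mem_Fs haA 4)
    norm_num at this
    exact this
  · refine ⟨12, hle (by norm_num : 4 ≤ 6) ?_, 0, hz, by norm_num⟩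
    have := mul_mem_Fs haA 4
    norm_num at this
    exact this
  · refine ⟨32, hle (by norm_num : 4 ≤ 6) ?_, 20, hle (by norm_num : 4 ≤ 6) ?_, by norm_num⟩
    · have := mul_mem_Fs hl 4
      norm_num at this
      exact this
    · have := mul_mem_Fs haA 4
      norm_num at this
      exact this
  · refine ⟨40, hle (by norm_num : 5 ≤ 6) ?_, 28, hle (by norm_num : 4 ≤ 6) ?_, by norm_num⟩
    · have := mul_mem_Fs hl 5
      norm_num at this
      exact this
    · have := mul_mem_Fs haA 4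
      norm_num at this
      exact this

/-- the arithmetic of the exceptional cases -/
private theorem exc {n k r b l : ℕ} (hrn : r < n) (hk2 : 2 ≤ k) (hb : 1 ≤ b)
    (hbk : b ≤ n * k) (hl1 : n * (k - 1) + 2 ≤ l) (hl2 : l ≤ r * k)
    (hdiv : ∀ j, 1 ≤ j → j ≤ r → j ∣ b) : l = b ∨ (n = 6 ∧ k = 2 ∧ l = 8 ∧ b = 12) := by
  obtain ⟨m, rfl⟩ : ∃ m, k = m + 1 := ⟨k - 1, by omega⟩
  have hm1 : 1 ≤ m := by omega
  rw [Nat.add_sub_cancel] at hl1
  have e1 : r * (m + 1) = r * m + r := by ring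
  have e2 : n * (m + 1) = n * m + n := by ring
  rw [e1] at hl2
  rw [e2] at hbk
  have h1 : (r + 1) * m ≤ n * m := Nat.mul_le_mul_right _ (by omega)
  have e3 : (r + 1) * m = r * m + m := by ring
  have hmr : m + 2 ≤ r := by omega
  have hnm : n ≤ n * m := Nat.le_mul_of_pos_right _ hm1
  have hb2 : b ≤ 2 * (r * m + r - 2) := by omega
  by_cases hr6 : 6 ≤ r
  · exfalso
    obtain ⟨q, rfl⟩ : ∃ q, r = q + 2 := ⟨r - 2, by omega⟩
    have d0 : q + 2 ∣ b := hdiv _ (by omega) le_rfl
    have d1 : q + 1 ∣ b := hdiv _ (by omega) (by omega)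
    have d2 : q ∣ b := hdiv _ (by omega) (by omega)
    have h2 : (q + 2) * q ∣ b * 2 := by
      have h3 : Nat.lcm (q + 2) q ∣ b := Nat.lcm_dvd d0 d2
      have h4 : Nat.gcd (q + 2) q ∣ 2 := by
        have h5 := Nat.gcd_dvd_left (q + 2) q
        have h6 := Nat.gcd_dvd_right (q + 2) q
        exact (Nat.dvd_add_right h6).1 h5
      rw [← Nat.gcd_mul_lcm (q + 2) q, mul_comm]
      exact Nat.mul_dvd_mul h3 h4
    have c1 : Nat.Coprime (q + 1) ((q + 2) * q) := by
      refine Nat.Coprime.mul_right ?_ ?_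
      · exact (Nat.coprime_self_add_right (m := q + 1) (n := 1)).2 (Nat.coprime_one_right _)
      · rw [Nat.coprime_comm]
        exact (Nat.coprime_self_add_right (m := q) (n := 1)).2 (Nat.coprime_one_right _)
    have h3 : (q + 1) * ((q + 2) * q) ∣ b * 2 :=
      Nat.Coprime.mul_dvd_of_dvd_of_dvd c1 (d1.mul_right 2) h2
    have h4 := Nat.le_of_dvd (by omega) h3
    have h5 : (q + 2) * m ≤ (q + 2) * q := Nat.mul_le_mul_left _ (by omega)
    have h6 : b + 4 ≤ 2 * ((q + 2) * (q + 1)) := by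
      have : (q + 2) * (q + 1) = (q + 2) * q + (q + 2) := by ring
      omega
    have h7 : 4 * ((q + 1) * (q + 2)) ≤ (q + 1) * ((q + 2) * q) := by
      have : (q + 1) * ((q + 2) * q) = q * ((q + 1) * (q + 2)) := by ring
      rw [this]
      exact Nat.mul_le_mul_right _ (by omega)
    have h8 : (q + 2) * (q + 1) = (q + 1) * (q + 2) := by ring
    omega
  · have hr3 : 3 ≤ r := by omega
    have d3 : 3 ∣ b := hdiv 3 (by norm_num) hr3
    have d2 : 2 ∣ b := hdiv 2 (by norm_num) (by omega)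
    have hr : r = 3 ∨ r = 4 ∨ r = 5 := by omega
    rcases hr with rfl | rfl | rfl
    · have : m = 1 := by omega
      subst this
      omega
    · have d4 : 4 ∣ b := hdiv 4 (by norm_num) le_rfl
      have hm : m = 1 ∨ m = 2 := by omega
      rcases hm with rfl | rfl
      · omega
      · omega
    · have d4 : 4 ∣ b := hdiv 4 (by norm_num) (by norm_num)
      have d5 : 5 ∣ b := hdiv 5 (by norm_num) le_rfl
      have hm : m = 1 ∨ m = 2 ∨ m = 3 := by omega
      rcases hm with rfl | rfl | rfl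
      · omega
      · omega
      · omega

/-- normalised sets -/
private theorem core {A : Finset ℤ} {l k n r D b b' : ℕ} (hl0 : 0 < l) (h0 : (0 : ℤ) ∈ A)
    (hl : (l : ℤ) ∈ A) (hA : ∀ a ∈ A, 0 ≤ a ∧ a ≤ l)
    (hgen : AddSubgroup.closure (A : Set ℤ) = ⊤) (hk : A.card = k + 1) (hr : 1 ≤ r)
    (hrn : r ≤ n) (hb : 1 ≤ b) (hkb : k = (b + n - 1) / n)
    (hdiv : ∀ j, 1 ≤ j → j ≤ r → j ∣ b) (hD : 1 ≤ D) (hDl : D * l ≤ r * k)
    (hbb : b = D * b') : ∃ x ∈ Fs A n, ∃ y ∈ Fs A n, x = y + (b' : ℤ) := by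
  have hn0 : 0 < n := by omega
  have hbk : b ≤ n * k := by
    have h1 := Nat.div_add_mod (b + n - 1) n
    have h2 := Nat.mod_lt (b + n - 1) hn0
    rw [← hkb] at h1
    omega
  have hb'b : b' ≤ b := by rw [hbb]; exact Nat.le_mul_of_pos_left _ hD
  by_cases hln : l ≤ n * (k - 1) + 1
  · exact dens hl0 h0 hl hA hgen hk hln (hb'b.trans hbk)
  have hln' : n * (k - 1) + 2 ≤ l := by omega
  have hl2 : 2 ≤ l := by omega
  have hk2 : 2 ≤ k := by
    by_contra h1
    have h2 : ({0, (l : ℤ)} : Finset ℤ) ⊆ A := by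
      intro x hx
      rcases Finset.mem_insert.1 hx with rfl | hx
      · exact h0
      · rw [Finset.mem_singleton.1 hx]; exact hl
    have h3 : ({0, (l : ℤ)} : Finset ℤ).card = 2 := Finset.card_pair (by omega)
    have h4 := Finset.eq_of_subset_of_card_le h2 (by omega)
    have h5 := not_top hgen (g := (l : ℤ)) (by
      rw [← h4]
      intro x hx
      rcases Finset.mem_insert.1 hx with rfl | hx
      · exact dvd_zero _
      · rw [Finset.mem_singleton.1 hx])
    have := Int.le_of_dvd one_pos h5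
    omega
  obtain ⟨m, hm⟩ : ∃ m, k = m + 1 := ⟨k - 1, by omega⟩
  have hkm : k - 1 = m := by omega
  have hrk : r * k ≤ n * k := Nat.mul_le_mul_right _ hrn
  have hD1 : D = 1 := by
    by_contra h1
    have h2 : 2 * l ≤ D * l := Nat.mul_le_mul_right _ (by omega)
    rw [hkm] at hln'
    have h3 : n * k = n * m + n := by rw [hm]; ring
    have h4 : n * 1 ≤ n * m := Nat.mul_le_mul_left _ (by omega)
    omega
  subst hD1
  rw [one_mul] at hbb hDl
  subst hbb
  have hlb : l = b → ∃ x ∈ Fs A n, ∃ y ∈ Fs A n, x = y + (b : ℤ) := by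
    intro h1
    refine ⟨l, Fs_le h0 (show 1 ≤ n from hn0) (by rw [Fs_one]; exact hl), 0,
      zero_mem_Fs h0 n, ?_⟩
    rw [h1]; ring
  rcases Nat.lt_or_ge r n with hrn' | hrn'
  · rcases exc hrn' hk2 hb hbk hln' hDl hdiv with h1 | ⟨rfl, rfl, rfl, rfl⟩
    · exact hlb h1
    · exact six h0 hl hA hgen hk
  · have hrn2 : r = n := le_antisymm hrn hrn'
    subst hrn2
    have hbe : b = r * k := by
      obtain ⟨t, ht⟩ := hdiv r hr le_rfl
      have h1 : k = t := by
        rw [hkb, ht]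
        have h2 : r * t + r - 1 = (r - 1) + r * t := by omega
        rw [h2, Nat.add_mul_div_left _ _ hn0, Nat.div_eq_of_lt (by omega), zero_add]
      rw [h1]; exact ht
    rcases Nat.lt_or_ge l (r * k) with h1 | h1
    · have hr2 : 2 ≤ r := by
        by_contra h2
        have h3 : r = 1 := by omega
        subst h3
        omega
      have c1 : Nat.Coprime (r - 1) r := by
        obtain ⟨j, rfl⟩ : ∃ j, r = j + 1 := ⟨r - 1, by omega⟩
        rw [Nat.add_sub_cancel]
        exact (Nat.coprime_self_add_right (m := j) (n := 1)).2 (Nat.coprime_one_right _)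
      have d1 : r - 1 ∣ k := by
        have h2 := hdiv (r - 1) (by omega) (by omega)
        rw [hbe] at h2
        exact c1.dvd_of_dvd_mul_left h2
      have hres := crit hl0 h0 hl hA hgen hk hr2 hln' h1
        (fun _ => Nat.le_of_dvd (by omega) d1) (by
          intro hodd
          have c2 : Nat.Coprime (r - 2) r := by
            obtain ⟨j, rfl⟩ : ∃ j, r = j + 2 := ⟨r - 2, by omega⟩
            rw [Nat.add_sub_cancel]
            refine (Nat.coprime_self_add_right (m := j) (n := 2)).2 ?_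
            rw [Nat.coprime_two_right, Nat.odd_iff]
            omega
          have c3 : Nat.Coprime (r - 1) (r - 2) := by
            obtain ⟨j, rfl⟩ : ∃ j, r = j + 2 := ⟨r - 2, by omega⟩
            have e1 : j + 2 - 1 = j + 1 := by omega
            rw [e1, Nat.add_sub_cancel, Nat.coprime_comm]
            exact (Nat.coprime_self_add_right (m := j) (n := 1)).2 (Nat.coprime_one_right _)
          have d2 : r - 2 ∣ k := by
            have h2 := hdiv (r - 2) (by omega) (by omega)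
            rw [hbe] at h2
            exact c2.dvd_of_dvd_mul_left h2
          exact Nat.le_of_dvd (by omega) (Nat.Coprime.mul_dvd_of_dvd_of_dvd c3 d1 d2))
      rw [← hbe] at hres
      exact hres
    · exact hlb (by omega)

/-- the finite density theorem -/
theorem main_dens {B : Finset ℤ} {n k r b : ℕ} (hr : 1 ≤ r) (hrn : r ≤ n) (hb : 1 ≤ b)
    (hkb : k = (b + n - 1) / n) (hdiv : ∀ j, 1 ≤ j → j ≤ r → j ∣ b) (hB : B.card = k + 1)
    (hdiam : ∀ x ∈ B, ∀ y ∈ B, x - y ≤ (r * k : ℕ)) :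
    ∃ x ∈ Fs B n, ∃ y ∈ Fs B n, x = y + (b : ℤ) := by
  classical
  have hn0 : 0 < n := by omega
  have hk1 : 1 ≤ k := by
    rw [hkb, Nat.one_le_div_iff hn0]; omega
  have hBne : B.Nonempty := Finset.card_pos.1 (by omega)
  set m := B.min' hBne with hm
  set M := B.max' hBne with hM
  have hmB : m ∈ B := Finset.min'_mem _ _
  have hMB : M ∈ B := Finset.max'_mem _ _
  have hml : ∀ x ∈ B, m ≤ x := fun x hx => Finset.min'_le _ _ hx
  have hMl : ∀ x ∈ B, x ≤ M := fun x hx => Finset.le_max' _ _ hx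
  have hmM : m < M := by
    rcases lt_or_eq_of_le (hml M hMB) with h | h
    · exact h
    · exfalso
      have h1 : B ⊆ {m} := fun x hx => by
        rw [Finset.mem_singleton]
        have := hml x hx
        have := hMl x hx
        omega
      have h2 := Finset.card_le_card h1
      rw [Finset.card_singleton] at h2
      omega
  set A0 : Finset ℤ := B.image fun x => x - m with hA0
  obtain ⟨g, hg⟩ := Int.subgroup_cyclic (AddSubgroup.closure (A0 : Set ℤ))
  rw [← AddSubgroup.zmultiples_eq_closure] at hg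
  set D := g.natAbs with hDdef
  have hdvd : ∀ x ∈ A0, (D : ℤ) ∣ x := by
    intro x hx
    have h1 : x ∈ AddSubgroup.closure (A0 : Set ℤ) := AddSubgroup.subset_closure hx
    rw [hg, Int.mem_zmultiples_iff] at h1
    exact Int.natAbs_dvd.2 h1
  have hMm : M - m ∈ A0 := Finset.mem_image.2 ⟨M, hMB, rfl⟩
  have hD0 : D ≠ 0 := by
    intro h1
    have := hdvd _ hMm
    rw [h1] at this
    have : M - m = 0 := by simpa using this
    omega
  have hDz : (0 : ℤ) < (D : ℤ) := by omega
  have hDmem : (D : ℤ) ∈ AddSubgroup.closure (A0 : Set ℤ) := by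
    rw [hg, Int.mem_zmultiples_iff]
    exact Int.dvd_natAbs.2 (dvd_refl g)
  set A : Finset ℤ := A0.image fun x => x / (D : ℤ) with hAdef
  have hAmul : ∀ a ∈ A, (D : ℤ) * a ∈ A0 := by
    intro a ha
    obtain ⟨x, hx, rfl⟩ := Finset.mem_image.1 ha
    rw [Int.mul_ediv_cancel' (hdvd x hx)]
    exact hx
  have hA0A : A0 = A.image (AddMonoidHom.mulLeft (D : ℤ)) := by
    ext x
    constructor
    · intro hx
      refine Finset.mem_image.2 ⟨x / (D : ℤ), Finset.mem_image.2 ⟨x, hx, rfl⟩, ?_⟩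
      exact Int.mul_ediv_cancel' (hdvd x hx)
    · intro hx
      obtain ⟨a, ha, rfl⟩ := Finset.mem_image.1 hx
      exact hAmul a ha
  have hgen : AddSubgroup.closure (A : Set ℤ) = ⊤ := by
    have h1 : AddSubgroup.closure (A0 : Set ℤ) =
        (AddSubgroup.closure (A : Set ℤ)).map (AddMonoidHom.mulLeft (D : ℤ)) := by
      rw [AddMonoidHom.map_closure, hA0A, Finset.coe_image]
    rw [h1] at hDmem
    obtain ⟨t, ht, htD⟩ := hDmem
    have h2 : (D : ℤ) * t = D := htD
    have h3 : t = 1 := by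
      have : (D : ℤ) * t = (D : ℤ) * 1 := by rw [h2, mul_one]
      exact mul_left_cancel₀ (by omega) this
    subst h3
    rw [AddSubgroup.eq_top_iff']
    intro x
    have := AddSubgroup.zsmul_mem _ ht x
    simpa using this
  have hAcard : A.card = k + 1 := by
    have h1 : A0.card = B.card := Finset.card_image_of_injective _ (sub_left_injective)
    have h2 : A0.card = A.card := by
      rw [hA0A]
      refine Finset.card_image_of_injective _ ?_
      intro x y hxy
      exact mul_left_cancel₀ (by omega : (D : ℤ) ≠ 0) hxy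
    omega
  obtain ⟨l, hl⟩ : ∃ l : ℕ, (D : ℤ) * l = M - m := by
    obtain ⟨c, hc⟩ := hdvd _ hMm
    have hc0 : 0 ≤ c := by
      by_contra h1
      have : (D : ℤ) * c < 0 := mul_neg_of_pos_of_neg hDz (by omega)
      omega
    obtain ⟨l, rfl⟩ := Int.eq_ofNat_of_zero_le hc0
    exact ⟨l, hc.symm⟩
  have hl0 : 0 < l := by
    rcases Nat.eq_zero_or_pos l with h | h
    · subst h
      simp at hl
      omega
    · exact h
  have h0A : (0 : ℤ) ∈ A := Finset.mem_image.2 ⟨0, Finset.mem_image.2 ⟨m, hmB, by ring⟩, by simp⟩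
  have hlA : (l : ℤ) ∈ A := by
    refine Finset.mem_image.2 ⟨M - m, hMm, ?_⟩
    rw [← hl]
    exact Int.mul_ediv_cancel_left _ (by omega)
  have hAb : ∀ a ∈ A, 0 ≤ a ∧ a ≤ l := by
    intro a ha
    obtain ⟨x, hx, hxa⟩ := Finset.mem_image.1 (hAmul a ha)
    have h1 := hml x hx
    have h2 := hMl x hx
    constructor
    · by_contra h3
      have : (D : ℤ) * a < 0 := mul_neg_of_pos_of_neg hDz (by omega)
      omega
    · have h3 : (D : ℤ) * a ≤ (D : ℤ) * l := by rw [hl, ← hxa]; omega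
      exact le_of_mul_le_mul_left h3 hDz
  have hDl : D * l ≤ r * k := by
    have h1 := hdiam M hMB m hmB
    rw [← hl] at h1
    exact_mod_cast h1
  have hkl : k ≤ l := by
    have h1 : A ⊆ Finset.Icc 0 (l : ℤ) := fun a ha => Finset.mem_Icc.2 (hAb a ha)
    have h2 := Finset.card_le_card h1
    rw [Int.card_Icc, hAcard] at h2
    omega
  have hDr : D ≤ r := by
    have h1 : D * k ≤ r * k := (Nat.mul_le_mul_left _ hkl).trans hDl
    exact Nat.le_of_mul_le_mul_right h1 hk1
  obtain ⟨b', hb'⟩ := hdiv D (by omega) hDr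
  obtain ⟨x, hx, y, hy, hxy⟩ := core hl0 h0A hlA hAb hgen hAcard hr hrn hb hkb hdiv
    (by omega) hDl hb'
  have haff : ∀ a ∈ A, (D : ℤ) * a + m ∈ B := by
    intro a ha
    obtain ⟨z, hz, hza⟩ := Finset.mem_image.1 (hAmul a ha)
    rw [← hza]
    simpa using hz
  refine ⟨_, Fs_affine haff n x hx, _, Fs_affine haff n y hy, ?_⟩
  rw [hxy, hb']
  push_cast
  ring

end Pool.Agent.RDN
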