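import Pool.Agent.RDN.Fsum

/-!
# Growth of `h`-fold sumsets, structured case

`A` is a finite set of integers with `0 ∈ A`, `π` a homomorphism to a finite group with
`π l = 0` for some `l ∈ A`, `0 < l`.
-/

open scoped Pointwise

namespace Pool.Agent.RDN

set_option linter.unusedSectionVars false

section basic

variable {G : Type*} [AddCommGroup G] [Fintype G] [DecidableEq G]

/-- a class which is hit by the sumset receives a new element -/
theorem gain_ge {A : Finset ℤ} {l : ℤ} (hl0 : 0 < l) (hl : l ∈ A) (π : ℤ →+ G)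
    (hπ : π l = 0) (h : ℕ) (p : G → Prop) [DecidablePred p] :
    ((Fs (A.image π) (h + 1)).filter p).card ≤
      ((Fs A (h + 1) \ Fs A h).filter fun x => p (π x)).card := by
  refine le_trans (Finset.card_le_card ?_) (Finset.card_image_le (f := π))
  intro z hz
  obtain ⟨hz1, hz2⟩ := Finset.mem_filter.1 hz
  rw [← Fs_image] at hz1
  obtain ⟨x0, hx0, hxz⟩ := Finset.mem_image.1 hz1
  have hne : ((Fs A (h + 1)).filter fun x => π x = z).Nonempty :=
    ⟨x0, Finset.mem_filter.2 ⟨hx0, hxz⟩⟩
  obtain ⟨hy1, hy2⟩ := Finset.mem_filter.1 (Finset.max'_mem _ hne)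
  set y := Finset.max' _ hne with hy
  refine Finset.mem_image.2 ⟨y, Finset.mem_filter.2 ⟨Finset.mem_sdiff.2 ⟨hy1, ?_⟩, ?_⟩, hy2⟩
  · intro hyh
    have h1 : y + l ∈ (Fs A (h + 1)).filter fun x => π x = z := by
      refine Finset.mem_filter.2 ⟨Finset.mem_add.2 ⟨y, hyh, l, hl, rfl⟩, ?_⟩
      rw [map_add, hπ, add_zero, hy2]
    have h2 := Finset.le_max' _ _ h1
    rw [← hy] at h2
    omega
  · rw [hy2]; exact hz2

theorem gain_all {A : Finset ℤ} {l : ℤ} (hl0 : 0 < l) (h0 : (0 : ℤ) ∈ A) (hl : l ∈ A)
    (π : ℤ →+ G) (hπ : π l = 0) (h : ℕ) :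
    (Fs A h).card + (Fs (A.image π) (h + 1)).card ≤ (Fs A (h + 1)).card := by
  have h1 := gain_ge hl0 hl π hπ h (fun _ => True)
  simp only [Finset.filter_true] at h1
  rw [Finset.card_sdiff_of_subset (Fs_step h0 h)] at h1
  have h2 := Finset.card_le_card (Fs_step h0 h)
  omega

end basic

section str

variable {G Q : Type*} [AddCommGroup G] [Fintype G] [DecidableEq G] [AddCommGroup Q]
  [Fintype Q] [DecidableEq Q]

/-- lower bound for the part of the sumset in a class -/
theorem class_ge {A : Finset ℤ} (ρ : ℤ →+ Q) (D : Finset Q) (μ : ℕ)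
    (hD : ∀ z ∈ D, μ ≤ (A.filter fun a => ρ a = z).card) (hμ : 0 < μ) (j : ℕ) :
    ∀ w ∈ Fs D (j + 1), (j + 1) * μ ≤ ((Fs A (j + 1)).filter fun x => ρ x = w).card + j := by
  induction j with
  | zero =>
    intro w hw
    rw [zero_add, Fs_one] at hw
    have h1 := hD w hw
    rw [zero_add, Fs_one]
    omega
  | succ n ih =>
    intro w hw
    rw [Fs_succ] at hw
    obtain ⟨w', hw', z, hz, rfl⟩ := Finset.mem_add.1 hw
    have h1 := ih w' hw'
    have h2 := hD z hz
    have hne1 : ((Fs A (n + 1)).filter fun x => ρ x = w').Nonempty := by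
      rw [← Finset.card_pos]
      have : (n + 1) * 1 ≤ (n + 1) * μ := Nat.mul_le_mul_left _ hμ
      omega
    have hne2 : (A.filter fun a => ρ a = z).Nonempty := by
      rw [← Finset.card_pos]; omega
    have h3 := cauchy_davenport_add_of_linearOrder_isCancelAdd hne1 hne2
    have h4 : ((Fs A (n + 1)).filter fun x => ρ x = w') + (A.filter fun a => ρ a = z) ⊆
        (Fs A (n + 1 + 1)).filter fun x => ρ x = w' + z := by
      intro x hx
      obtain ⟨u, hu, a, ha, rfl⟩ := Finset.mem_add.1 hx
      obtain ⟨hu1, hu2⟩ := Finset.mem_filter.1 hu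
      obtain ⟨ha1, ha2⟩ := Finset.mem_filter.1 ha
      refine Finset.mem_filter.2 ⟨Finset.mem_add.2 ⟨u, hu1, a, ha1, rfl⟩, ?_⟩
      rw [map_add, hu2, ha2]
    have h5 := Finset.card_le_card h4
    have h6 : (n + 1 + 1) * μ = (n + 1) * μ + μ := by ring
    omega

/-- the growth of the set of classes -/
theorem growth {q : G →+ Q} (hq : Function.Surjective q) {S : Finset G} (h0 : (0 : G) ∈ S)
    (hκ : ∀ X : Finset G, X.Nonempty → X + S ≠ Finset.univ →
      X.card + (S.image q).card * ker q ≤ (X + S).card + ker q) (j : ℕ)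
    (hj : Fs (S.image q) j ≠ Finset.univ) :
    1 + j * (S.image q).card ≤ (Fs (S.image q) j).card + j := by
  have h0' : (0 : Q) ∈ S.image q := Finset.mem_image.2 ⟨0, h0, map_zero q⟩
  induction j with
  | zero => simp [Fs_zero]
  | succ n ih =>
    have h1 : Fs (S.image q) n ≠ Finset.univ := by
      intro h2
      apply hj
      rw [← Finset.univ_subset_iff, ← h2]
      exact Fs_step h0' n
    have h2 := ih h1
    set X := Finset.univ.filter fun g => q g ∈ Fs (S.image q) n with hX
    have hXS : X + S = Finset.univ.filter fun g => q g ∈ Fs (S.image q) (n + 1) := by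
      ext g
      constructor
      · intro hg
        obtain ⟨x, hx, s, hs, rfl⟩ := Finset.mem_add.1 hg
        refine Finset.mem_filter.2 ⟨Finset.mem_univ _, ?_⟩
        rw [map_add]
        exact Finset.mem_add.2 ⟨q x, (Finset.mem_filter.1 hx).2, q s,
          Finset.mem_image_of_mem _ hs, rfl⟩
      · intro hg
        obtain ⟨w, hw, z, hz, hwz⟩ := Finset.mem_add.1 (Finset.mem_filter.1 hg).2
        obtain ⟨s, hs, rfl⟩ := Finset.mem_image.1 hz
        refine Finset.mem_add.2 ⟨g - s, Finset.mem_filter.2 ⟨Finset.mem_univ _, ?_⟩, s, hs,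
          by abel⟩
        rw [map_sub, ← hwz, add_sub_cancel_right]
        exact hw
    have h3 := hκ X ⟨0, Finset.mem_filter.2 ⟨Finset.mem_univ _, by
      rw [map_zero]; exact zero_mem_Fs h0' n⟩⟩ (by
        rw [hXS]
        intro h4
        apply hj
        rw [Finset.eq_univ_iff_forall]
        intro w
        obtain ⟨g, rfl⟩ := hq w
        have h5 : g ∈ Finset.univ.filter fun g => q g ∈ Fs (S.image q) (n + 1) := by
          rw [h4]; exact Finset.mem_univ g
        exact (Finset.mem_filter.1 h5).2)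
    rw [hXS, hX, pre_card hq, pre_card hq] at h3
    have h4 : 0 < ker q := ker_pos q
    have h5 : (Fs (S.image q) n).card + (S.image q).card ≤
        (Fs (S.image q) (n + 1)).card + 1 := by
      have h6 : ((Fs (S.image q) n).card + (S.image q).card) * ker q ≤
          ((Fs (S.image q) (n + 1)).card + 1) * ker q := by nlinarith
      exact Nat.le_of_mul_le_mul_right h6 h4
    have h6 : (n + 1) * (S.image q).card = n * (S.image q).card + (S.image q).card := by ring
    omega

end str

end Pool.Agent.RDN
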