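import Pool.Agent.RDN.Rado

/-!
# The case `n = 2` with three colours
-/

namespace Pool.Agent.RDN

/-- three blocks -/
private theorem blocks {k p q : ℕ} {S : ℕ → Prop} (h3 : 3 ∣ k) (hp : 1 ≤ p) (hpq : p < q)
    (hqk : q ≤ k)
    (hns : ∀ x₁ x₂ y₁ y₂, S x₁ → S x₂ → S y₁ → S y₂ → x₁ + x₂ ≠ y₁ + y₂ + 2 * k)
    (h0 : ∀ x, x < p → S x) (h1 : ∀ x, p ≤ x → x < q → S (k + x))
    (h2 : ∀ x, q ≤ x → x ≤ k → S (2 * k + x)) : False := by
  -- `m = q - p` is the length of the middle block
  have c1 : p ≤ (q - p) + 1 := by
    by_contra h
    exact hns (2 * k + q) 0 (p - 1) (q - p + 1) (h2 q le_rfl hqk) (h0 0 (by omega))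
      (h0 _ (by omega)) (h0 _ (by omega)) (by omega)
  have c2 : k - q ≤ q - p := by
    by_contra h
    exact hns (2 * k + q) (2 * k + q) (p - 1) (2 * k + (q + (q - p) + 1)) (h2 q le_rfl hqk)
      (h2 q le_rfl hqk) (h0 _ (by omega)) (h2 _ (by omega) (by omega)) (by omega)
  have c3 : q - p ≤ p := by
    by_contra h
    exact hns (2 * k + k) (k + 2 * p) (k + p) (k + p) (h2 k hqk le_rfl)
      (h1 _ (by omega) (by omega)) (h1 _ le_rfl hpq) (h1 _ le_rfl hpq) (by omega)
  have c4 : k - q + 1 ≤ p := by
    by_contra h
    exact hns (2 * k + k) (2 * k + k) (k + p) (2 * k + (k - p)) (h2 k hqk le_rfl)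
      (h2 k hqk le_rfl) (h1 _ le_rfl hpq) (h2 _ (by omega) (by omega)) (by omega)
  have c5 : p ≤ k - q + 1 := by
    by_contra h
    exact hns (k + (q - 1)) (k - q + 1) 0 0 (h1 _ (by omega) (by omega)) (h0 _ (by omega))
      (h0 _ (by omega)) (h0 _ (by omega)) (by omega)
  obtain ⟨t, rfl⟩ := h3
  omega

/-- the structure of a colour class with the largest possible size -/
theorem two_struct {k : ℕ} (hk0 : 0 < k) (h3 : 3 ∣ k) {S : ℕ → Prop}
    (hns : ∀ x₁ x₂ y₁ y₂, S x₁ → S x₂ → S y₁ → S y₂ → x₁ + x₂ ≠ y₁ + y₂ + 2 * k)
    {e : ℕ → ℕ} (he : ∀ z ≤ k, e z ≤ 2 ∧ S (z + e z * k)) (e0 : e 0 = 0) (ek : e k = 2) :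
    ∀ z ≤ k, e z = 2 * (z % 2) := by
  have hk3 : 3 ≤ k := Nat.le_of_dvd hk0 h3
  -- increments
  have hinc : ∀ d x y, x + d ≤ k → y + d ≤ k → e (x + d) + e y ≠ e x + e (y + d) + 2 := by
    intro d x y hx hy h
    refine hns _ _ _ _ (he _ hx).2 (he y (by omega)).2 (he x (by omega)).2 (he _ hy).2 ?_
    have h1 : e (x + d) * k + e y * k = e x * k + e (y + d) * k + 2 * k := by
      rw [← add_mul, h]; ring
    omega
  have hle : ∀ z ≤ k, e z ≤ 2 := fun z hz => (he z hz).1
  by_cases hz : ∃ x, x + 1 ≤ k ∧ e (x + 1) = e x
  · -- monotone
    exfalso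
    obtain ⟨x, hx, hxe⟩ := hz
    have hup : ∃ y, y + 1 ≤ k ∧ e y < e (y + 1) := by
      by_contra h
      push Not at h
      have : ∀ z, z ≤ k → e z = 0 := by
        intro z
        induction z with
        | zero => intro _; exact e0
        | succ z ih =>
          intro hz
          have h1 := ih (by omega)
          have h2 := h z hz
          omega
      have := this k le_rfl
      omega
    obtain ⟨y, hy, hye⟩ := hup
    have hy1 : e (y + 1) = e y + 1 := by
      have h1 := hinc 1 y x hy hx
      have h2 := hle (y + 1) hy
      omega
    have hmono : ∀ z, z + 1 ≤ k → e (z + 1) = e z ∨ e (z + 1) = e z + 1 := by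
      intro z hz
      have h1 := hinc 1 z x hz hx
      have h2 := hinc 1 x z hx hz
      have h3 := hinc 1 y z hy hz
      have h4 := hle (z + 1) hz
      have h5 := hle z (by omega)
      omega
    have hmon : ∀ a b, a ≤ b → b ≤ k → e a ≤ e b := by
      intro a b hab
      induction b, hab using Nat.le_induction with
      | base => intro _; exact le_rfl
      | succ b _ ih =>
        intro hb
        have h1 := ih (by omega)
        have h2 := hmono b hb
        omega
    -- the blocks
    have hfind : ∀ c, c ≤ 2 → ∃ p, (p ≤ k ∧ c ≤ e p) ∧ ∀ x, x < p → ¬ (x ≤ k ∧ c ≤ e x) := by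
      intro c hc
      classical
      have hex : ∃ p, p ≤ k ∧ c ≤ e p := ⟨k, le_rfl, by omega⟩
      exact ⟨Nat.find hex, Nat.find_spec hex, fun x hx => Nat.find_min hex hx⟩
    obtain ⟨p, hp, hpmin⟩ := hfind 1 (by norm_num)
    obtain ⟨q, hq, hqmin⟩ := hfind 2 le_rfl
    have hp1 : 1 ≤ p := by
      rcases Nat.eq_zero_or_pos p with h | h
      · rw [h, e0] at hp; omega
      · exact h
    have hep : e p = 1 := by
      have h1 := hpmin (p - 1) (by omega)
      have h2 := hmono (p - 1) (by omega)
      have h4 : p - 1 + 1 = p := by omega
      rw [h4] at h2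
      have h5 := hp.2
      by_contra h6
      apply h1
      exact ⟨by omega, by omega⟩
    have hpq : p < q := by
      rcases Nat.lt_or_ge p q with h | h
      · exact h
      · have := hmon q p h hp.1
        omega
    refine blocks h3 hp1 hpq hq.1 hns ?_ ?_ ?_
    · intro x hx
      have h1 := hpmin x hx
      have h2 : e x = 0 := by
        by_contra h4
        exact h1 ⟨by omega, by omega⟩
      have h4 := (he x (by omega)).2
      rw [h2, zero_mul, add_zero] at h4
      exact h4
    · intro x hx1 hx2
      have h1 := hmon p x hx1 (by omega)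
      have h2 := hqmin x hx2
      have h4 : e x = 1 := by
        by_contra h5
        exact h2 ⟨by omega, by omega⟩
      have h5 := (he x (by omega)).2
      rw [h4, one_mul, add_comm] at h5
      exact h5
    · intro x hx1 hx2
      have h1 := hmon q x hx1 hx2
      have h2 := hle x hx2
      have h4 : e x = 2 := by omega
      have h5 := (he x hx2).2
      rw [h4, add_comm] at h5
      exact h5
  · push Not at hz
    -- no two consecutive equal values
    by_cases h1 : ∃ x, x ≤ k ∧ e x = 1
    · exfalso
      obtain ⟨x, hx, hx1⟩ := h1
      have hx0 : x ≠ 0 := by rintro rfl; omega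
      have hxk : x ≠ k := by rintro rfl; omega
      obtain ⟨w, rfl⟩ : ∃ w, x = w + 1 := ⟨x - 1, by omega⟩
      have a1 := hz w hx
      have a2 := hz (w + 1) (by omega)
      have a3 := hle w (by omega)
      have a4 := hle (w + 2) (by omega)
      have a5 := hinc 1 w (w + 1) hx (by omega)
      have a6 := hinc 1 (w + 1) w (by omega) hx
      have e1 : w + 1 + 1 = w + 2 := rfl
      rw [e1] at a2 a5 a6
      have hcase : (e w = 0 ∧ e (w + 2) = 2) ∨ (e w = 2 ∧ e (w + 2) = 0) := by omega
      rcases hcase with ⟨b1, b2⟩ | ⟨b1, b2⟩
      · -- the cycle `0, 1, 2`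
        have hno : ∀ y, y + 2 ≤ k → e (y + 2) ≠ e y := by
          intro y hy h
          have := hinc 2 w y (by omega) hy
          omega
        have hnd : ∀ y, y + 1 ≤ k → e (y + 1) + 1 ≠ e y := by
          intro y hy h
          have := hinc 1 w y (by omega) hy
          omega
        have hcyc : ∀ z, z ≤ k → e z = z % 3 := by
          intro z
          induction z using Nat.strong_induction_on with
          | _ z ih =>
            intro hzk
            rcases Nat.lt_or_ge z 1 with h | h
            · have : z = 0 := by omega
              subst this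
              rw [e0]
            · obtain ⟨v, rfl⟩ : ∃ v, z = v + 1 := ⟨z - 1, by omega⟩
              have i1 := ih v (by omega) (by omega)
              have j1 := hz v hzk
              have j2 := hnd v hzk
              have j3 := hle (v + 1) hzk
              rcases Nat.eq_zero_or_pos v with h' | h'
              · subst h'
                rw [e0] at j1
                have k1 := hno 0 (by omega)
                have k2 := hz 1 (by omega)
                have k3 := hle 2 (by omega)
                have k4 := hnd 1 (by omega)
                rw [e0] at k1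
                norm_num at *
                omega
              · obtain ⟨u, rfl⟩ : ∃ u, v = u + 1 := ⟨v - 1, by omega⟩
                have i2 := ih u (by omega) (by omega)
                have k1 := hno u (by omega)
                have e2 : u + 1 + 1 = u + 2 := rfl
                rw [e2] at j1 j2 j3 ⊢
                omega
        have := hcyc k le_rfl
        omega
      · -- the cycle `0, 2, 1`
        have hno : ∀ y, y + 2 ≤ k → e (y + 2) ≠ e y := by
          intro y hy h
          have := hinc 2 y w hy (by omega)
          omega
        have hnd : ∀ y, y + 1 ≤ k → e (y + 1) ≠ e y + 1 := by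
          intro y hy h
          have := hinc 1 y w hy (by omega)
          omega
        have hcyc : ∀ z, z ≤ k → e z = (2 * z) % 3 := by
          intro z
          induction z using Nat.strong_induction_on with
          | _ z ih =>
            intro hzk
            rcases Nat.lt_or_ge z 1 with h | h
            · have : z = 0 := by omega
              subst this
              rw [e0]
            · obtain ⟨v, rfl⟩ : ∃ v, z = v + 1 := ⟨z - 1, by omega⟩
              have i1 := ih v (by omega) (by omega)
              have j1 := hz v hzk
              have j2 := hnd v hzk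
              have j3 := hle (v + 1) hzk
              rcases Nat.eq_zero_or_pos v with h' | h'
              · subst h'
                rw [e0] at j1 j2
                norm_num at *
                omega
              · obtain ⟨u, rfl⟩ : ∃ u, v = u + 1 := ⟨v - 1, by omega⟩
                have i2 := ih u (by omega) (by omega)
                have k1 := hno u (by omega)
                have e2 : u + 1 + 1 = u + 2 := rfl
                rw [e2] at j1 j2 j3 ⊢
                have hu3 : u % 3 = 0 ∨ u % 3 = 1 ∨ u % 3 = 2 := by omega
                rcases hu3 with hu3 | hu3 | hu3 <;> omega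
        have := hcyc k le_rfl
        omega
    · push Not at h1
      intro z
      induction z with
      | zero => intro _; rw [e0]
      | succ z ih =>
        intro hzk
        have i1 := ih (by omega)
        have i2 := hz z hzk
        have i3 := h1 (z + 1) hzk
        have i4 := hle (z + 1) hzk
        omega

end Pool.Agent.RDN
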