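import Pool.Agent.RDN.Two

/-!
# The case `n = 2`: all Rado numbers
-/

namespace Pool.Agent.RDN

private theorem fin3 {a b c d : Fin 3} (h1 : a ≠ b) (h2 : a ≠ c) (h3 : b ≠ c) :
    d = a ∨ d = b ∨ d = c := by
  revert a b c d
  decide

/-- one window of a colouring without solution -/
private theorem window {k s N : ℕ} (hk0 : 0 < k) (h3 : 3 ∣ k) (hs : 1 ≤ s) (hN : s + 3 * k ≤ N)
    {c : ℕ → Fin 3}
    (hns : ∀ x₁ x₂ y₁ y₂ j, (1 ≤ x₁ ∧ x₁ ≤ N ∧ c x₁ = j) → (1 ≤ x₂ ∧ x₂ ≤ N ∧ c x₂ = j) →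
      (1 ≤ y₁ ∧ y₁ ≤ N ∧ c y₁ = j) → (1 ≤ y₂ ∧ y₂ ≤ N ∧ c y₂ = j) →
      x₁ + x₂ ≠ y₁ + y₂ + 2 * k) :
    k % 2 = 1 ∧ ∀ z ≤ k, c (s + (z + 2 * (z % 2) * k)) = c s := by
  have hd : ∀ u, 1 ≤ u → u + 2 * k ≤ N →
      c u ≠ c (u + k) ∧ c u ≠ c (u + 2 * k) ∧ c (u + k) ≠ c (u + 2 * k) := by
    intro u h1 h2
    refine ⟨fun h => ?_, fun h => ?_, fun h => ?_⟩
    · exact hns (u + k) (u + k) u u (c u) ⟨by omega, by omega, h.symm⟩
        ⟨by omega, by omega, h.symm⟩ ⟨h1, by omega, rfl⟩ ⟨h1, by omega, rfl⟩ (by ring)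
    · exact hns (u + 2 * k) u u u (c u) ⟨by omega, by omega, h.symm⟩
        ⟨by omega, by omega, rfl⟩ ⟨h1, by omega, rfl⟩ ⟨h1, by omega, rfl⟩ (by ring)
    · exact hns (u + 2 * k) (u + 2 * k) (u + k) (u + k) (c (u + k)) ⟨by omega, by omega, h.symm⟩
        ⟨by omega, by omega, h.symm⟩ ⟨by omega, by omega, rfl⟩ ⟨by omega, by omega, rfl⟩
        (by ring)
  have hek : c (s + 3 * k) = c s := by
    obtain ⟨a1, a2, -⟩ := hd s hs (by omega)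
    obtain ⟨b1, b2, b3⟩ := hd (s + k) (by omega) (by omega)
    have e1 : s + k + k = s + 2 * k := by ring
    have e2 : s + k + 2 * k = s + 3 * k := by ring
    rw [e1] at b1 b3
    rw [e2] at b2 b3
    rcases fin3 (d := c s) b1 b2 b3 with h | h | h
    · exact absurd h a1
    · exact absurd h a2
    · exact h.symm
  have hex : ∀ z, ∃ t, (z = 0 → t = 0) ∧ (z = k → t = 2) ∧
      (z ≤ k → t ≤ 2 ∧ c (s + (z + t * k)) = c s) := by
    intro z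
    by_cases hz0 : z = 0
    · subst hz0
      exact ⟨0, fun _ => rfl, fun h => by omega, fun _ => ⟨by omega, by simp⟩⟩
    · by_cases hzk : z = k
      · subst hzk
        refine ⟨2, fun h => by omega, fun _ => rfl, fun _ => ⟨le_rfl, ?_⟩⟩
        have e1 : s + (z + 2 * z) = s + 3 * z := by ring
        rw [e1]; exact hek
      · by_cases hzk' : z ≤ k
        · obtain ⟨b1, b2, b3⟩ := hd (s + z) (by omega) (by omega)
          rcases fin3 (d := c s) b1 b2 b3 with h | h | h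
          · refine ⟨0, fun _ => rfl, fun h => by omega, fun _ => ⟨by omega, ?_⟩⟩
            rw [zero_mul, add_zero]; exact h.symm
          · refine ⟨1, fun h => by omega, fun h => by omega, fun _ => ⟨by omega, ?_⟩⟩
            rw [one_mul, ← add_assoc]; exact h.symm
          · refine ⟨2, fun h => by omega, fun h => by omega, fun _ => ⟨by omega, ?_⟩⟩
            rw [← add_assoc]; exact h.symm
        · exact ⟨0, fun _ => rfl, fun h => by omega, fun h => by omega⟩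
  choose e he0 hek2 he using hex
  have hstr := two_struct hk0 h3 (S := fun x => x ≤ 3 * k ∧ c (s + x) = c s) (by
    rintro x₁ x₂ y₁ y₂ ⟨a1, a2⟩ ⟨b1, b2⟩ ⟨c1, c2⟩ ⟨d1, d2⟩ h
    exact hns (s + x₁) (s + x₂) (s + y₁) (s + y₂) (c s) ⟨by omega, by omega, a2⟩
      ⟨by omega, by omega, b2⟩ ⟨by omega, by omega, c2⟩ ⟨by omega, by omega, d2⟩ (by omega))
    (e := e) (fun z hz => by
      obtain ⟨h1, h2⟩ := he z hz
      refine ⟨h1, ?_, h2⟩
      have h4 : e z * k ≤ 2 * k := Nat.mul_le_mul_right _ h1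
      omega) (he0 0 rfl) (hek2 k rfl)
  refine ⟨?_, ?_⟩
  · have h1 := hstr k le_rfl
    rw [hek2 k rfl] at h1
    omega
  · intro z hz
    have h1 := (he z hz).2
    rw [hstr z hz] at h1
    exact h1

/-- three colours, upper bound -/
theorem two_upper {b N : ℕ} (hb : 1 ≤ b) (h6 : 6 ∣ b)
    (hN : 3 * (b / 2) + (if 12 ∣ b then 1 else 3) ≤ N) (c : ℕ → Fin 3) :
    ∃ x y : Fin 2 → ℕ, ∃ j : Fin 3,
      (∀ i, (1 ≤ x i ∧ x i ≤ N ∧ c (x i) = j) ∧ (1 ≤ y i ∧ y i ≤ N ∧ c (y i) = j)) ∧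
      ∑ i, x i = ∑ i, y i + b := by
  by_contra hne
  obtain ⟨k, hk⟩ : ∃ k, b = 2 * k := by
    obtain ⟨t, rfl⟩ := h6
    exact ⟨3 * t, by ring⟩
  have hk2 : b / 2 = k := by omega
  rw [hk2] at hN
  have hk0 : 0 < k := by omega
  have h3 : 3 ∣ k := by omega
  have hns : ∀ x₁ x₂ y₁ y₂ j, (1 ≤ x₁ ∧ x₁ ≤ N ∧ c x₁ = j) → (1 ≤ x₂ ∧ x₂ ≤ N ∧ c x₂ = j) →
      (1 ≤ y₁ ∧ y₁ ≤ N ∧ c y₁ = j) → (1 ≤ y₂ ∧ y₂ ≤ N ∧ c y₂ = j) →
      x₁ + x₂ ≠ y₁ + y₂ + 2 * k := by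
    intro x₁ x₂ y₁ y₂ j h1 h2 h4 h5 h
    apply hne
    refine ⟨![x₁, x₂], ![y₁, y₂], j, ?_, ?_⟩
    · intro i
      fin_cases i
      · exact ⟨h1, h4⟩
      · exact ⟨h2, h5⟩
    · simp only [Fin.sum_univ_two, Matrix.cons_val_zero, Matrix.cons_val_one]
      rw [hk]; exact h
  by_cases h12 : 12 ∣ b
  · rw [if_pos h12] at hN
    have h1 := (window hk0 h3 le_rfl (by omega) hns).1
    omega
  · rw [if_neg h12] at hN
    obtain ⟨hodd, w1⟩ := window hk0 h3 (s := 1) le_rfl (by omega) hns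
    have w2 := (window hk0 h3 (s := 3) (by norm_num) (by omega) hns).2
    have hk3 : 3 ≤ k := Nat.le_of_dvd hk0 h3
    have a1 := w1 2 (by omega)
    have a2 := w1 1 (by omega)
    have a3 := w2 (k - 1) (by omega)
    have e1 : 1 + (2 + 2 * (2 % 2) * k) = 3 := by norm_num
    have e2 : 1 + (1 + 2 * (1 % 2) * k) = 2 * k + 2 := by norm_num; ring
    have e3 : (k - 1) % 2 = 0 := by omega
    have e4 : 3 + (k - 1 + 2 * ((k - 1) % 2) * k) = k + 2 := by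
      rw [e3, mul_zero, zero_mul]; omega
    rw [e1] at a1
    rw [e2] at a2
    rw [e4, a1] at a3
    exact hns (2 * k + 2) (2 * k + 2) (k + 2) (k + 2) (c 1) ⟨by omega, by omega, a2⟩
      ⟨by omega, by omega, a2⟩ ⟨by omega, by omega, a3⟩ ⟨by omega, by omega, a3⟩ (by ring)

/-- three colours, lower bound for `b = 6` modulo `12` -/
theorem two_lower {b : ℕ} (h6 : 6 ∣ b) (h12 : ¬ 12 ∣ b) : ∃ c : ℕ → Fin 3,
    ¬ ∃ x y : Fin 2 → ℕ, ∃ j : Fin 3,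
      (∀ i, (1 ≤ x i ∧ x i ≤ 3 * (b / 2) + 2 ∧ c (x i) = j) ∧
        (1 ≤ y i ∧ y i ≤ 3 * (b / 2) + 2 ∧ c (y i) = j)) ∧
      ∑ i, x i = ∑ i, y i + b := by
  obtain ⟨k, hk, hodd⟩ : ∃ k, b = 2 * k ∧ k % 2 = 1 := by
    obtain ⟨t, rfl⟩ := h6
    exact ⟨3 * t, by ring, by omega⟩
  have hk2 : b / 2 = k := by omega
  rw [hk2, hk]
  refine ⟨fun x => if x ≤ k + 1 then (if x % 2 = 1 then 0 else 1) else
    if x ≤ 2 * k + 1 then 2 else (if x % 2 = 0 then 0 else 1), ?_⟩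
  rintro ⟨x, y, j, hxy, hs⟩
  have hcol : ∀ (v : ℕ), v ≤ 3 * k + 2 → (if v ≤ k + 1 then (if v % 2 = 1 then (0 : Fin 3) else 1)
      else if v ≤ 2 * k + 1 then 2 else (if v % 2 = 0 then 0 else 1)) = j →
      (j = 0 ∧ ((v ≤ k ∧ v % 2 = 1) ∨ (2 * k + 2 ≤ v ∧ v ≤ 3 * k + 1 ∧ v % 2 = 0))) ∨
      (j = 1 ∧ ((v ≤ k + 1 ∧ v % 2 = 0) ∨ (2 * k + 3 ≤ v ∧ v % 2 = 1))) ∨
      (j = 2 ∧ k + 2 ≤ v ∧ v ≤ 2 * k + 1) := by
    intro v hv h
    split_ifs at h with h1 h2 h3 h4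
    · exact Or.inl ⟨h.symm, Or.inl ⟨by omega, h2⟩⟩
    · exact Or.inr (Or.inl ⟨h.symm, Or.inl ⟨h1, by omega⟩⟩)
    · exact Or.inr (Or.inr ⟨h.symm, by omega, h3⟩)
    · exact Or.inl ⟨h.symm, Or.inr ⟨by omega, by omega, h4⟩⟩
    · exact Or.inr (Or.inl ⟨h.symm, Or.inr ⟨by omega, by omega⟩⟩)
  rw [Fin.sum_univ_two, Fin.sum_univ_two] at hs
  obtain ⟨⟨a1, a2, a3⟩, b1, b2, b3⟩ := hxy 0
  obtain ⟨⟨c1, c2, c3⟩, d1, d2, d3⟩ := hxy 1
  have p1 := hcol _ a2 a3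
  have p2 := hcol _ b2 b3
  have p3 := hcol _ c2 c3
  have p4 := hcol _ d2 d3
  have hj : j = 0 ∨ j = 1 ∨ j = 2 :=
    (by decide : ∀ j : Fin 3, j = 0 ∨ j = 1 ∨ j = 2) j
  rcases hj with rfl | rfl | rfl
  · simp only [show ((0 : Fin 3) = 1) = False from by simp, show ((0 : Fin 3) = 2) = False from by
      simp, false_and, or_false, true_and] at p1 p2 p3 p4
    omega
  · simp only [show ((1 : Fin 3) = 0) = False from by simp, show ((1 : Fin 3) = 2) = False from by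
      simp, false_and, or_false, false_or, true_and] at p1 p2 p3 p4
    omega
  · simp only [show ((2 : Fin 3) = 0) = False from by simp, show ((2 : Fin 3) = 1) = False from by
      simp, false_and, false_or, true_and] at p1 p2 p3 p4
    omega

/-- four colours -/
theorem two_four {b r : ℕ} (hr : 4 ≤ r) (hb : 1 ≤ b) : ∃ c : ℕ → Fin r,
    ¬ ∃ x y : Fin 2 → ℕ, ∃ j : Fin r,
      (∀ i, c (x i) = j ∧ c (y i) = j) ∧ ∑ i, x i = ∑ i, y i + b := by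
  by_cases h2 : 2 ∣ b
  · obtain ⟨k, hk⟩ := h2
    have hk0 : 0 < k := by omega
    refine ⟨fun x => ⟨(x / k) % 4, lt_of_lt_of_le (Nat.mod_lt _ (by norm_num)) hr⟩, ?_⟩
    rintro ⟨x, y, j, hxy, hs⟩
    have hv : ∀ v : ℕ, (⟨(v / k) % 4, lt_of_lt_of_le (Nat.mod_lt _ (by norm_num)) hr⟩ : Fin r) = j →
        ∃ t s : ℤ, (v : ℤ) = k * (4 * t + (j : ℕ)) + s ∧ 0 ≤ s ∧ s < k := by
      intro v h
      have h1 : (v / k) % 4 = (j : ℕ) := congrArg Fin.val h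
      refine ⟨((v / k / 4 : ℕ) : ℤ), ((v % k : ℕ) : ℤ), ?_, by positivity, ?_⟩
      · have h2 := Nat.div_add_mod v k
        have h4 := Nat.div_add_mod (v / k) 4
        rw [h1] at h4
        have h5 : (v : ℤ) = (k : ℤ) * ((v / k : ℕ) : ℤ) + ((v % k : ℕ) : ℤ) := by
          exact_mod_cast h2.symm
        have h6 : ((v / k : ℕ) : ℤ) = 4 * ((v / k / 4 : ℕ) : ℤ) + (j : ℕ) := by
          exact_mod_cast h4.symm
        rw [h5, h6]
      · exact_mod_cast Nat.mod_lt v hk0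
    obtain ⟨t1, s1, a1, a2, a3⟩ := hv _ (hxy 0).1
    obtain ⟨t2, s2, b1, b2, b3⟩ := hv _ (hxy 1).1
    obtain ⟨t3, s3, c1, c2, c3⟩ := hv _ (hxy 0).2
    obtain ⟨t4, s4, d1, d2, d3⟩ := hv _ (hxy 1).2
    rw [Fin.sum_univ_two, Fin.sum_univ_two] at hs
    have hs' : ((x 0 : ℕ) : ℤ) + (x 1 : ℕ) = (y 0 : ℕ) + (y 1 : ℕ) + (b : ℕ) := by
      exact_mod_cast hs
    rw [a1, b1, c1, d1, hk] at hs'
    push_cast at hs'
    have h5 : (k : ℤ) * (4 * (t1 + t2 - t3 - t4) - 2) = s3 + s4 - s1 - s2 := by linarith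
    have hkz : (0 : ℤ) < k := by exact_mod_cast hk0
    rcases le_or_gt (t1 + t2 - t3 - t4) 0 with h6 | h6
    · have : (k : ℤ) * (4 * (t1 + t2 - t3 - t4) - 2) ≤ k * (-2) :=
        mul_le_mul_of_nonneg_left (by omega) hkz.le
      linarith
    · have : (k : ℤ) * 2 ≤ k * (4 * (t1 + t2 - t3 - t4) - 2) :=
        mul_le_mul_of_nonneg_left (by omega) hkz.le
      linarith
  · exact rado_mod (n := 2) (j := 2) (by norm_num) (by omega) h2

end Pool.Agent.RDN
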